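import Pool.Agent.H33.HC.TB
import Pool.Agent.H65.CRZ.TN
import Pool.Agent.H46.HH.NRM

/-!
# AR2: the second quadratic form at Selberg's weights
-/

set_option autoImplicit false

open NumberField Complex Filter Topology MeasureTheory
open scoped nonZeroDivisors

namespace Pool.Agent.H49.HC

open Pool.Agent.H33.HC Pool.Agent.H33.HH Pool.Agent.H28.RC Pool.Agent.H37.CV
  Pool.Agent.H65.CRZ

/-! ### Finite sets with norms -/

section comb

variable {ι : Type} {N : ι → ℝ}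

theorem ar_fS_pos (hN : ∀ P, 2 ≤ N P) (S : Finset ι) : 0 < fS N S :=
  Finset.prod_pos fun P _ => by linarith [hN P]

theorem ar_nS_pos (hN : ∀ P, 2 ≤ N P) (S : Finset ι) : 0 < nS N S :=
  Finset.prod_pos fun P _ => by linarith [hN P]

theorem ar_one_le (hN : ∀ P, 2 ≤ N P) (S : Finset ι) : 1 ≤ nS N S := by
  unfold nS
  refine Finset.prod_induction N (fun x => 1 ≤ x) (fun a b ha hb => ?_) le_rfl
    fun P _ => by linarith [hN P]
  nlinarith

open scoped Classical in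
theorem ar_mem {A S : Finset ι} {M : ℝ} : S ∈ DS N A M ↔ S ⊆ A ∧ nS N S ≤ M := by
  unfold DS
  rw [Finset.mem_filter, Finset.mem_powerset]

open scoped Classical in
theorem ar_down (hN : ∀ P, 2 ≤ N P) {A S E : Finset ι} {M : ℝ} (hS : S ∈ DS N A M)
    (hE : E ⊆ S) : E ∈ DS N A M := by
  rw [ar_mem] at hS ⊢
  refine ⟨hE.trans hS.1, le_trans ?_ hS.2⟩
  have h1 : nS N S = nS N E * nS N (S \ E) := by
    unfold nS
    rw [mul_comm]
    exact (Finset.prod_sdiff hE).symm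
  rw [h1]
  have h2 := ar_nS_pos hN E
  have h3 := ar_one_le hN (S \ E)
  nlinarith

open scoped Classical in
/-- the second form, diagonalised -/
theorem v2_form (h1 : T_S1) (hN : ∀ P, 2 ≤ N P) (A : Finset ι) (M : ℝ) (hM : 1 ≤ M)
    (a b : ℂ) :
    ∑ S ∈ DS N A M, ∑ T ∈ DS N A M, ((xS N A M S * xS N A M T : ℝ) : ℂ) *
      (((nS N S : ℝ) : ℂ) ^ (-(1 - a)) * ((nS N T : ℝ) : ℂ) ^ (-(1 - b)) *
        ∑ E ∈ (S ∩ T).powerset, ((fS N E : ℝ) : ℂ) * ((nS N E : ℝ) : ℂ) ^ (-(a + b))) =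
    (((GS N A M)⁻¹ ^ 2 : ℝ) : ℂ) * ∑ D ∈ DS N A M, (((fS N D)⁻¹ : ℝ) : ℂ) *
      (Eb N A D (M / nS N D) (-a) * Eb N A D (M / nS N D) (-b)) := by
  have h2 : ∀ S ∈ DS N A M, ∀ T ∈ DS N A M, ((xS N A M S * xS N A M T : ℝ) : ℂ) *
      (((nS N S : ℝ) : ℂ) ^ (-(1 - a)) * ((nS N T : ℝ) : ℂ) ^ (-(1 - b)) *
        ∑ E ∈ (S ∩ T).powerset, ((fS N E : ℝ) : ℂ) * ((nS N E : ℝ) : ℂ) ^ (-(a + b))) =
      ∑ E ∈ DS N A M, if E ⊆ S ∧ E ⊆ T then
        (((fS N E : ℝ) : ℂ) * ((nS N E : ℝ) : ℂ) ^ (-(a + b))) *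
        (((xS N A M S : ℝ) : ℂ) * ((nS N S : ℝ) : ℂ) ^ (-(1 + -a))) *
        (((xS N A M T : ℝ) : ℂ) * ((nS N T : ℝ) : ℂ) ^ (-(1 + -b))) else 0 := by
    intro S hS T _
    rw [← Finset.sum_filter]
    have h3 : (DS N A M).filter (fun E => E ⊆ S ∧ E ⊆ T) = (S ∩ T).powerset := by
      ext E
      rw [Finset.mem_filter, Finset.mem_powerset, Finset.subset_inter_iff]
      constructor
      · rintro ⟨_, h4⟩
        exact h4
      · intro h4
        exact ⟨ar_down hN hS h4.1, h4⟩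
    rw [h3, Finset.mul_sum, Finset.mul_sum]
    refine Finset.sum_congr rfl fun E _ => ?_
    rw [← sub_eq_add_neg, ← sub_eq_add_neg]
    push_cast
    ring
  calc _ = ∑ S ∈ DS N A M, ∑ T ∈ DS N A M, ∑ E ∈ DS N A M, (if E ⊆ S ∧ E ⊆ T then
        (((fS N E : ℝ) : ℂ) * ((nS N E : ℝ) : ℂ) ^ (-(a + b))) *
        (((xS N A M S : ℝ) : ℂ) * ((nS N S : ℝ) : ℂ) ^ (-(1 + -a))) *
        (((xS N A M T : ℝ) : ℂ) * ((nS N T : ℝ) : ℂ) ^ (-(1 + -b))) else 0) :=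
        Finset.sum_congr rfl fun S hS => Finset.sum_congr rfl fun T hT => h2 S hS T hT
    _ = ∑ E ∈ DS N A M, ∑ S ∈ DS N A M, ∑ T ∈ DS N A M, (if E ⊆ S ∧ E ⊆ T then
        (((fS N E : ℝ) : ℂ) * ((nS N E : ℝ) : ℂ) ^ (-(a + b))) *
        (((xS N A M S : ℝ) : ℂ) * ((nS N S : ℝ) : ℂ) ^ (-(1 + -a))) *
        (((xS N A M T : ℝ) : ℂ) * ((nS N T : ℝ) : ℂ) ^ (-(1 + -b))) else 0) := by
        rw [Finset.sum_congr rfl fun S _ => Finset.sum_comm, Finset.sum_comm]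
    _ = ∑ E ∈ DS N A M, (((fS N E : ℝ) : ℂ) * ((nS N E : ℝ) : ℂ) ^ (-(a + b))) *
        ((∑ S ∈ (DS N A M).filter (fun S => E ⊆ S),
          (xS N A M S : ℂ) * ((nS N S : ℝ) : ℂ) ^ (-(1 + -a))) *
        ∑ T ∈ (DS N A M).filter (fun T => E ⊆ T),
          (xS N A M T : ℂ) * ((nS N T : ℝ) : ℂ) ^ (-(1 + -b))) := by
        refine Finset.sum_congr rfl fun E _ => ?_
        rw [Finset.sum_mul_sum, Finset.mul_sum, Finset.sum_filter]
        refine Finset.sum_congr rfl fun S _ => ?_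
        split_ifs with h
        · rw [Finset.mul_sum, Finset.sum_filter]
          refine Finset.sum_congr rfl fun T _ => ?_
          by_cases h3 : E ⊆ T
          · rw [if_pos ⟨h, h3⟩, if_pos h3]
            ring
          · rw [if_neg fun h4 => h3 h4.2, if_neg h3]
        · exact Finset.sum_eq_zero fun T _ => if_neg fun h4 => h h4.1
    _ = _ := by
        rw [Finset.mul_sum]
        refine Finset.sum_congr rfl fun E hE => ?_
        rw [h1 ι N A E M (-a) hN hM hE, h1 ι N A E M (-b) hN hM hE]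
        have h5 : ((nS N E : ℝ) : ℂ) ≠ 0 := by exact_mod_cast (ar_nS_pos hN E).ne'
        have h6 : ((nS N E : ℝ) : ℂ) ^ (-(a + b)) * (((nS N E : ℝ) : ℂ) ^ (-(-a)) *
            ((nS N E : ℝ) : ℂ) ^ (-(-b))) = 1 := by
          rw [← Complex.cpow_add _ _ h5, ← Complex.cpow_add _ _ h5,
            show -(a + b) + (-(-a) + -(-b)) = 0 by ring, Complex.cpow_zero]
        have h7 : ((-1 : ℂ) ^ E.card) * ((-1 : ℂ) ^ E.card) = 1 := by
          rw [← mul_pow]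
          norm_num
        have h8 : ((fS N E : ℝ) : ℂ) ≠ 0 := by exact_mod_cast (ar_fS_pos hN E).ne'
        by_cases hG : GS N A M = 0
        · rw [hG]
          simp
        have h9 : ((GS N A M : ℝ) : ℂ) ≠ 0 := by exact_mod_cast hG
        have e : (((fS N E : ℝ) : ℂ) * ((nS N E : ℝ) : ℂ) ^ (-(a + b))) *
            (((-1 : ℂ) ^ E.card * ((nS N E : ℝ) : ℂ) ^ (-(-a)) /
              ((fS N E * GS N A M : ℝ) : ℂ) * Eb N A E (M / nS N E) (-a)) *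
            ((-1 : ℂ) ^ E.card * ((nS N E : ℝ) : ℂ) ^ (-(-b)) /
              ((fS N E * GS N A M : ℝ) : ℂ) * Eb N A E (M / nS N E) (-b))) =
            (((nS N E : ℝ) : ℂ) ^ (-(a + b)) * (((nS N E : ℝ) : ℂ) ^ (-(-a)) *
            ((nS N E : ℝ) : ℂ) ^ (-(-b)))) * (((-1 : ℂ) ^ E.card) * ((-1 : ℂ) ^ E.card)) *
            (((fS N E : ℝ) : ℂ) / ((fS N E * GS N A M : ℝ) : ℂ) ^ 2 *
              (Eb N A E (M / nS N E) (-a) * Eb N A E (M / nS N E) (-b))) := by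
          ring
        rw [e, h6, h7]
        push_cast
        field_simp

end comb

section
variable {K : Type} [Field K] [NumberField K]

theorem ar_two (P : PrI K) : 2 ≤ np P := by
  unfold np nm
  have h0 : Ideal.absNorm P.1 ≠ 0 := fun h => P.2.2 (Ideal.absNorm_eq_zero_iff.1 h)
  have h1 : Ideal.absNorm P.1 ≠ 1 := fun h => P.2.1.ne_top (Ideal.absNorm_eq_one_iff.1 h)
  have : 2 ≤ Ideal.absNorm P.1 := by omega
  exact_mod_cast this

theorem ar_rk (K : Type) [Field K] [NumberField K] [IQ K] (P : ℝ) : 0 < rk K P := by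
  unfold rk
  refine mul_pos ?_ (Finset.prod_pos fun p _ => ?_)
  · unfold rh
    have h1 : 0 < wu K := (Pool.Agent.H46.HH.pf_NRM K).2.1
    have h2 : 0 < sd K := by
      unfold sd
      refine Real.sqrt_pos.2 (abs_pos.2 ?_)
      exact_mod_cast discr_ne_zero K
    have h3 : 0 < hc K := by
      unfold hc
      exact_mod_cast classNumber_pos K
    positivity
  · have := ar_two p
    rw [sub_pos, div_lt_one (by linarith)]
    linarith

theorem ar_sum_sg (s : PrI K → ℝ) (hs : ∀ P, 0 ≤ s P) (A : Finset (PrI K)) (M : ℝ) :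
    ∑ D ∈ DS np A M, (fS np D)⁻¹ * ∑ P ∈ D, s P ≤
      (∑ P ∈ A, s P / (np P - 1)) * GS np A M := by
  classical
  have h1 : ∀ D ∈ DS np A M, (fS np D)⁻¹ * ∑ P ∈ D, s P =
      ∑ P ∈ A, if P ∈ D then (fS np D)⁻¹ * s P else 0 := by
    intro D hD
    rw [Finset.mul_sum, ← Finset.sum_filter]
    have h2 : A.filter (fun P => P ∈ D) = D := by
      ext P
      rw [Finset.mem_filter]
      exact ⟨fun h => h.2, fun h => ⟨(ar_mem.1 hD).1 h, h⟩⟩
    rw [h2]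
  rw [Finset.sum_congr rfl h1, Finset.sum_comm, Finset.sum_mul]
  refine Finset.sum_le_sum fun P _ => ?_
  rw [← Finset.sum_filter]
  have h2 : ∑ D ∈ (DS np A M).filter (fun D => P ∈ D), (fS np D)⁻¹ * s P =
      s P / (np P - 1) * ∑ D ∈ (DS np A M).filter (fun D => P ∈ D), (fS np (D.erase P))⁻¹ := by
    rw [Finset.mul_sum]
    refine Finset.sum_congr rfl fun D hD => ?_
    have h3 := (Finset.mem_filter.1 hD).2
    have h4 : fS np D = (np P - 1) * fS np (D.erase P) := by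
      unfold fS
      exact (Finset.mul_prod_erase D (fun P => np P - 1) h3).symm
    rw [h4, mul_inv]
    ring
  rw [h2]
  refine mul_le_mul_of_nonneg_left ?_ (div_nonneg (hs P) (by linarith [ar_two P]))
  have h5 : ∑ D ∈ (DS np A M).filter (fun D => P ∈ D), (fS np (D.erase P))⁻¹ =
      ∑ T ∈ ((DS np A M).filter (fun D => P ∈ D)).image (fun D => D.erase P), (fS np T)⁻¹ := by
    rw [Finset.sum_image]
    intro D hD D' hD' h
    have h6 := (Finset.mem_filter.1 hD).2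
    have h7 := (Finset.mem_filter.1 hD').2
    have h8 : D.erase P = D'.erase P := h
    rw [← Finset.insert_erase h6, ← Finset.insert_erase h7, h8]
  rw [h5]
  refine Finset.sum_le_sum_of_subset_of_nonneg ?_ fun T _ _ => (inv_pos.2 (ar_fS_pos ar_two T)).le
  intro T hT
  obtain ⟨D, hD, rfl⟩ := Finset.mem_image.1 hT
  obtain ⟨h6, h7⟩ := Finset.mem_filter.1 hD
  obtain ⟨h8, h9⟩ := ar_mem.1 h6
  refine ar_mem.2 ⟨(Finset.erase_subset _ _).trans h8, le_trans ?_ h9⟩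
  have h10 : nS np D = np P * nS np (D.erase P) := by
    unfold nS
    exact (Finset.mul_prod_erase D np h7).symm
  rw [h10]
  have h11 := ar_nS_pos (N := np) ar_two (D.erase P)
  nlinarith [ar_two P]

/-- the terms of the sum over the primes -/
noncomputable def asg (D : Finset (PrI K)) : ℝ := ∑ P ∈ D, Real.log (np P) / (np P - 1)

theorem asg_term (P : PrI K) : 0 ≤ Real.log (np P) / (np P - 1) :=
  div_nonneg (Real.log_nonneg (by linarith [ar_two P])) (by linarith [ar_two P])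

theorem asg_nonneg (D : Finset (PrI K)) : 0 ≤ asg D :=
  Finset.sum_nonneg fun P _ => asg_term P

open scoped Classical in
theorem asg_union (D R : Finset (PrI K)) : ∑ P ∈ D ∪ R, Real.log (np P) / (np P - 1) ≤
    asg D + asg R := by
  have h1 := Finset.sum_union_inter (s₁ := D) (s₂ := R)
    (f := fun P : PrI K => Real.log (np P) / (np P - 1))
  have h2 : 0 ≤ ∑ P ∈ D ∩ R, Real.log (np P) / (np P - 1) :=
    Finset.sum_nonneg fun P _ => asg_term P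
  unfold asg
  linarith

end

theorem ar_fin (ρ l G η₃ A E : ℝ) (F R : ℂ) (hρ : 0 < ρ) (hl : 0 < l)
    (hG : |G - ρ * l| ≤ η₃ * l) (hη₃ : η₃ ≤ ρ / 2) (hF : ‖F‖ ≤ A * l) (hR : ‖R‖ ≤ E) :
    ‖((ρ * l ^ 2 : ℝ) : ℂ) * ((((G)⁻¹ ^ 2 : ℝ) : ℂ) * ((ρ : ℂ) * F + R)) - F‖ ≤
      6 * η₃ / ρ * (A * l) + 4 / ρ * E := by
  obtain ⟨h1, h2⟩ := abs_le.1 hG
  have hη0 : 0 ≤ η₃ := by
    have := (abs_nonneg _).trans hG
    exact nonneg_of_mul_nonneg_left this hl
  have hGl : ρ * l / 2 ≤ G := by nlinarith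
  have hG0 : 0 < G := lt_of_lt_of_le (by positivity) hGl
  have hGc : (G : ℂ) ≠ 0 := by exact_mod_cast hG0.ne'
  have e : ((ρ * l ^ 2 : ℝ) : ℂ) * ((((G)⁻¹ ^ 2 : ℝ) : ℂ) * ((ρ : ℂ) * F + R)) - F =
      F * (((ρ * l - G) * (ρ * l + G) / G ^ 2 : ℝ) : ℂ) + ((ρ * l ^ 2 / G ^ 2 : ℝ) : ℂ) * R := by
    push_cast
    field_simp
    ring
  rw [e]
  refine (norm_add_le _ _).trans (add_le_add ?_ ?_)
  · rw [norm_mul, Complex.norm_real, Real.norm_eq_abs, abs_div, abs_mul,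
      abs_of_pos (show 0 < G ^ 2 by positivity), abs_of_pos (show 0 < ρ * l + G by positivity),
      abs_sub_comm]
    have h3 : |G - ρ * l| * (ρ * l + G) / G ^ 2 ≤ 6 * η₃ / ρ := by
      rw [div_le_div_iff₀ (by positivity) hρ]
      have h4 : |G - ρ * l| * (ρ * l + G) ≤ η₃ * l * (3 * G) :=
        mul_le_mul hG (by linarith) (by positivity) (by positivity)
      have h5 : η₃ * l * (3 * G) * ρ ≤ 6 * η₃ * G ^ 2 := by
        have h6 : ρ * l ≤ 2 * G := by linarith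
        have h7 : 0 ≤ 3 * η₃ * G := by positivity
        nlinarith [mul_le_mul_of_nonneg_left h6 h7]
      nlinarith [mul_le_mul_of_nonneg_right h4 hρ.le]
    calc ‖F‖ * (|G - ρ * l| * (ρ * l + G) / G ^ 2) ≤ A * l * (6 * η₃ / ρ) :=
          mul_le_mul hF h3 (by positivity) ((norm_nonneg _).trans hF)
      _ = _ := by ring
  · rw [norm_mul, Complex.norm_real, Real.norm_of_nonneg (by positivity)]
    refine mul_le_mul ?_ hR (norm_nonneg _) (by positivity)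
    rw [div_le_div_iff₀ (by positivity) hρ]
    have h6 : (ρ * l) ^ 2 ≤ (2 * G) ^ 2 := pow_le_pow_left₀ (by positivity) (by linarith) 2
    nlinarith

theorem pf_AR2 (h1 : Pool.Agent.H65.CRZ.T_S1) (h2 : Pool.Agent.H65.CRZ.T_EB)
    (h3 : Pool.Agent.H65.CRZ.T_EA) (h4 : T_EAP) (h5 : T_MOP)
    (h6 : Pool.Agent.H33.HH.T_GLk) : T_AR2 := by
  classical
  intro K _ _ _ P C₀ η hC₀ hη
  have hρ : 0 < rk K P := ar_rk K P
  obtain ⟨Ce, hCe, hEB⟩ := h2 K C₀ hC₀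
  obtain ⟨Cg, hCg0, hGL, -, hCg⟩ := h6 K P
  obtain ⟨cP, hcP⟩ : ∃ cP, cP = asg (PM K P) := ⟨_, rfl⟩
  have hcP0 : 0 ≤ cP := by rw [hcP]; exact asg_nonneg _
  obtain ⟨A₁, hA₁⟩ : ∃ A₁, A₁ = C₀ * Ce ^ 2 + (1 + C₀) * (Ce * C₀) := ⟨_, rfl⟩
  obtain ⟨A₂, hA₂⟩ : ∃ A₂, A₂ = Ce + (1 + C₀) := ⟨_, rfl⟩
  have hA₁0 : 0 < A₁ := by rw [hA₁]; positivity
  have hA₂0 : 0 < A₂ := by rw [hA₂]; positivity
  obtain ⟨M₁, hM₁, hEA⟩ := h3 K C₀ (η / (32 * A₂)) hC₀ (by positivity)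
  obtain ⟨M₂, hM₂, hMO⟩ := h5 K P (rk K P * η / (16 * (1 + C₀) ^ 2)) (by positivity)
  obtain ⟨η₃, hη₃⟩ : ∃ η₃, η₃ = min (rk K P / 2) (rk K P * η / (24 * (1 + C₀) ^ 2)) :=
    ⟨_, rfl⟩
  have hη₃0 : 0 < η₃ := by
    rw [hη₃]
    exact lt_min (by positivity) (by positivity)
  refine ⟨max (max M₁ M₂) (max (Real.exp (Cg / η₃)) (Real.exp (32 * A₁ * (Cg + cP) / η))),
    le_trans hM₁ (le_trans (le_max_left _ _) (le_max_left _ _)), ?_⟩
  intro M α β hM hα hβ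
  have hMM1 : M₁ ≤ M := (le_trans (le_max_left _ _) (le_max_left _ _)).trans hM
  have hMM2 : M₂ ≤ M := (le_trans (le_max_right _ _) (le_max_left _ _)).trans hM
  have hMM3 : Real.exp (Cg / η₃) ≤ M := (le_trans (le_max_left _ _) (le_max_right _ _)).trans hM
  have hMM4 : Real.exp (32 * A₁ * (Cg + cP) / η) ≤ M :=
    (le_trans (le_max_right _ _) (le_max_right _ _)).trans hM
  have hM2 : 2 ≤ M := hM₁.trans hMM1
  have hM1 : 1 ≤ M := by linarith
  have hM0 : 0 < M := by linarith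
  obtain ⟨l, hl⟩ : ∃ l, l = Real.log M := ⟨_, rfl⟩
  have hl0 : 0 < l := by rw [hl]; exact Real.log_pos (by linarith)
  have hlbig : 32 * A₁ * (Cg + cP) / η ≤ l := by
    rw [hl, Real.le_log_iff_exp_le hM0]
    exact hMM4
  have hlbig3 : Cg ≤ η₃ * l := by
    have h7 : Cg / η₃ ≤ l := by
      rw [hl, Real.le_log_iff_exp_le hM0]
      exact hMM3
    rw [div_le_iff₀ hη₃0] at h7
    linarith
  obtain ⟨G, hGdef⟩ : ∃ G, G = GS np (AP K P M) M := ⟨_, rfl⟩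
  have hG : |G - rk K P * l| ≤ η₃ * l := by
    rw [hGdef, hl]
    refine (hGL M hM1).trans ?_
    rw [← hl]
    exact hlbig3
  have hη₃' : η₃ ≤ rk K P / 2 := by rw [hη₃]; exact min_le_left _ _
  have hG2 : G ≤ 2 * rk K P * l := by
    have := (abs_le.1 hG).2
    nlinarith
  have hG0 : 0 ≤ G := by
    rw [hGdef]
    unfold GS
    exact Finset.sum_nonneg fun S _ => (inv_pos.2 (ar_fS_pos ar_two S)).le
  obtain ⟨a, ha⟩ : ∃ a, a = -α := ⟨_, rfl⟩
  obtain ⟨b, hb⟩ : ∃ b, b = -β := ⟨_, rfl⟩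
  have haM : ‖a‖ ≤ C₀ / Real.log M := by rw [ha, norm_neg]; exact hα
  have hbM : ‖b‖ ≤ C₀ / Real.log M := by rw [hb, norm_neg]; exact hβ
  have hα' := haM
  have hβ' := hbM
  rw [← hl] at hα' hβ'
  -- the logarithms
  obtain ⟨lam, hlam⟩ : ∃ lam : Finset (PrI K) → ℝ, lam = fun D => Real.log (M / nS np D) :=
    ⟨_, rfl⟩
  have hx : ∀ D ∈ DP K P M, 1 ≤ M / nS np D ∧ M / nS np D ≤ M ∧ 0 ≤ lam D ∧ lam D ≤ l := by
    intro D hD
    have h7 := (ar_mem.1 hD).2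
    have h8 : 1 ≤ M / nS np D := (one_le_div (ar_nS_pos ar_two D)).2 h7
    have h9 : M / nS np D ≤ M := div_le_self hM0.le (ar_one_le ar_two D)
    refine ⟨h8, h9, ?_, ?_⟩
    · rw [hlam]
      exact Real.log_nonneg h8
    · rw [hlam, hl]
      exact Real.log_le_log (by linarith) h9
  have hmb : ∀ z : ℂ, ‖z‖ ≤ C₀ / l → ∀ D ∈ DP K P M, ‖1 + z * (lam D : ℂ)‖ ≤ 1 + C₀ := by
    intro z hz D hD
    obtain ⟨-, -, h7, h8⟩ := hx D hD
    refine (norm_add_le _ _).trans ?_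
    rw [norm_one, norm_mul, Complex.norm_real, Real.norm_of_nonneg h7]
    have h9 : ‖z‖ * lam D ≤ C₀ / l * l := mul_le_mul hz h8 h7 (by positivity)
    rw [div_mul_cancel₀ _ hl0.ne'] at h9
    linarith
  -- the values of `Eb`
  have hE : ∀ z : ℂ, ‖z‖ ≤ C₀ / Real.log M → ∀ D ∈ DP K P M,
      ‖Eb np (AP K P M) D (M / nS np D) z‖ ≤ Ce ∧
      ‖Eb np (AP K P M) D (M / nS np D) z - (1 + z * (lam D : ℂ))‖ ≤
        Ce * (C₀ / l) * (asg D + cP) + η / (32 * A₂) := by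
    intro z hz D hD
    obtain ⟨h7, h8, -, -⟩ := hx D hD
    rw [h4 K P M (M / nS np D) D z]
    obtain ⟨h9, -⟩ := hEB M z hM2 hz (M / nS np D) (M / nS np D) h8 le_rfl
    obtain ⟨h10, h11⟩ := h9 (D ∪ PM K P)
    refine ⟨h10, ?_⟩
    have h12 := hEA M z hMM1 hz (M / nS np D) h7 h8
    have h13 : (lam D : ℂ) = ((Real.log (M / nS np D) : ℝ) : ℂ) := by rw [hlam]
    rw [h13]
    have e : Eb np (PM K M) (D ∪ PM K P) (M / nS np D) z -
        (1 + z * ((Real.log (M / nS np D) : ℝ) : ℂ)) =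
        (Eb np (PM K M) (D ∪ PM K P) (M / nS np D) z - Eb np (PM K M) ∅ (M / nS np D) z) +
        (Eb np (PM K M) ∅ (M / nS np D) z - (1 + z * ((Real.log (M / nS np D) : ℝ) : ℂ))) := by
      ring
    rw [e]
    refine (norm_add_le _ _).trans (add_le_add (h11.trans ?_) h12)
    rw [hl, hcP]
    exact mul_le_mul (mul_le_mul_of_nonneg_left hz (by linarith)) (asg_union D (PM K P))
      (Finset.sum_nonneg fun P _ => asg_term P)
      (mul_nonneg (by linarith) ((norm_nonneg _).trans hz))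
  -- one term
  have hT : ∀ D ∈ DP K P M, ‖Eb np (AP K P M) D (M / nS np D) a *
      Eb np (AP K P M) D (M / nS np D) b - (1 + a * (lam D : ℂ)) * (1 + b * (lam D : ℂ))‖ ≤
        A₁ / l * (asg D + cP) + η / 32 := by
    intro D hD
    obtain ⟨a1, a2⟩ := hE a haM D hD
    obtain ⟨b1, b2⟩ := hE b hbM D hD
    have m1 := hmb a hα' D hD
    have hs := asg_nonneg D
    obtain ⟨Ea, hEa⟩ : ∃ Ea, Ea = Eb np (AP K P M) D (M / nS np D) a := ⟨_, rfl⟩
    obtain ⟨Ebb, hEbb⟩ : ∃ Ebb, Ebb = Eb np (AP K P M) D (M / nS np D) b := ⟨_, rfl⟩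
    obtain ⟨ma, hma⟩ : ∃ ma, ma = 1 + a * (lam D : ℂ) := ⟨_, rfl⟩
    obtain ⟨mb, hmb'⟩ : ∃ mb, mb = 1 + b * (lam D : ℂ) := ⟨_, rfl⟩
    rw [← hEa, ← hma] at a2
    rw [← hEa] at a1
    rw [← hEbb, ← hmb'] at b2
    rw [← hEbb] at b1
    rw [← hma] at m1
    rw [← hEa, ← hEbb, ← hma, ← hmb']
    have e : Ea * Ebb - ma * mb = (Ea - ma) * Ebb + ma * (Ebb - mb) := by ring
    rw [e]
    have n2 : ‖(Ea - ma) * Ebb‖ ≤ (Ce * (C₀ / l) * (asg D + cP) + η / (32 * A₂)) * Ce := by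
      rw [norm_mul]
      exact mul_le_mul a2 b1 (norm_nonneg _) (by positivity)
    have n3 : ‖ma * (Ebb - mb)‖ ≤
        (1 + C₀) * (Ce * (C₀ / l) * (asg D + cP) + η / (32 * A₂)) := by
      rw [norm_mul]
      exact mul_le_mul m1 b2 (norm_nonneg _) (by positivity)
    refine (norm_add_le _ _).trans ((add_le_add n2 n3).trans (le_of_eq ?_))
    rw [hA₁]
    have hη32 : η / (32 * A₂) * (Ce + (1 + C₀)) = η / 32 := by
      rw [← hA₂]
      field_simp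
    linear_combination hη32
  -- the sum
  obtain ⟨R₁, hR₁⟩ : ∃ R₁ : ℂ, R₁ = ∑ D ∈ DP K P M, (((fS np D)⁻¹ : ℝ) : ℂ) *
      (Eb np (AP K P M) D (M / nS np D) a * Eb np (AP K P M) D (M / nS np D) b -
        (1 + a * (lam D : ℂ)) * (1 + b * (lam D : ℂ))) := ⟨_, rfl⟩
  have hR₁b : ‖R₁‖ ≤ 2 * rk K P * A₁ * (Cg + cP) + rk K P * η / 16 * l := by
    rw [hR₁]
    refine (norm_sum_le _ _).trans ?_
    have h7 : ∀ D ∈ DP K P M, ‖(((fS np D)⁻¹ : ℝ) : ℂ) *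
      (Eb np (AP K P M) D (M / nS np D) a * Eb np (AP K P M) D (M / nS np D) b -
        (1 + a * (lam D : ℂ)) * (1 + b * (lam D : ℂ)))‖ ≤
        A₁ / l * ((fS np D)⁻¹ * asg D) + (A₁ / l * cP + η / 32) * (fS np D)⁻¹ := by
      intro D hD
      have h8 := (inv_pos.2 (ar_fS_pos (N := np) ar_two D)).le
      rw [norm_mul, Complex.norm_real, Real.norm_of_nonneg h8]
      refine (mul_le_mul_of_nonneg_left (hT D hD) h8).trans (le_of_eq (by ring))
    refine (Finset.sum_le_sum h7).trans ?_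
    rw [Finset.sum_add_distrib, ← Finset.mul_sum, ← Finset.mul_sum]
    have h8 : ∑ D ∈ DP K P M, (fS np D)⁻¹ = G := by rw [hGdef]; rfl
    rw [h8]
    have h9 : ∑ D ∈ DP K P M, (fS np D)⁻¹ * asg D ≤ Cg * G := by
      refine (ar_sum_sg (fun P => Real.log (np P) / (np P - 1)) asg_term (AP K P M) M).trans ?_
      rw [← hGdef]
      refine mul_le_mul_of_nonneg_right ?_ hG0
      refine le_trans (le_of_eq (Finset.sum_congr rfl fun P _ => ?_)) (hCg (AP K P M))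
      rw [div_div, pow_two]
    have h10 : A₁ / l * ∑ D ∈ DP K P M, (fS np D)⁻¹ * asg D ≤ 2 * rk K P * A₁ * Cg := by
      calc A₁ / l * ∑ D ∈ DP K P M, (fS np D)⁻¹ * asg D ≤
            A₁ / l * (Cg * (2 * rk K P * l)) := by
            refine mul_le_mul_of_nonneg_left (h9.trans ?_) (by positivity)
            exact mul_le_mul_of_nonneg_left hG2 hCg0
        _ = _ := by field_simp
    have h11 : (A₁ / l * cP + η / 32) * G ≤ 2 * rk K P * A₁ * cP + rk K P * η / 16 * l := by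
      calc (A₁ / l * cP + η / 32) * G ≤ (A₁ / l * cP + η / 32) * (2 * rk K P * l) :=
            mul_le_mul_of_nonneg_left hG2 (by positivity)
        _ = _ := by
            field_simp
            ring
    linarith
  -- the moments
  obtain ⟨η₂, hη₂⟩ : ∃ η₂, η₂ = rk K P * η / (16 * (1 + C₀) ^ 2) := ⟨_, rfl⟩
  have hη₂0 : 0 < η₂ := by rw [hη₂]; positivity
  obtain ⟨S, hS⟩ : ∃ S : ℕ → ℝ, S = fun k => ∑ D ∈ DP K P M, lam D ^ k / fS np D := ⟨_, rfl⟩
  have hSk : ∀ k : ℕ, k ≤ 2 → ‖((S k : ℝ) : ℂ) - ((rk K P * l ^ (k + 1) / (k + 1) : ℝ) : ℂ)‖ ≤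
      η₂ * l ^ (k + 1) := by
    intro k hk
    rw [← Complex.ofReal_sub, Complex.norm_real, Real.norm_eq_abs, hS, hlam, hη₂, hl]
    exact hMO M k hMM2 hk
  have hmain : ∑ D ∈ DP K P M, (((fS np D)⁻¹ : ℝ) : ℂ) *
      ((1 + a * (lam D : ℂ)) * (1 + b * (lam D : ℂ))) =
      ((S 0 : ℝ) : ℂ) + (a + b) * ((S 1 : ℝ) : ℂ) + a * b * ((S 2 : ℝ) : ℂ) := by
    rw [hS]
    push_cast
    rw [Finset.mul_sum, Finset.mul_sum, ← Finset.sum_add_distrib, ← Finset.sum_add_distrib]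
    refine Finset.sum_congr rfl fun D _ => ?_
    ring
  obtain ⟨R₂, hR₂⟩ : ∃ R₂ : ℂ, R₂ = ((S 0 : ℝ) : ℂ) + (a + b) * ((S 1 : ℝ) : ℂ) +
      a * b * ((S 2 : ℝ) : ℂ) - (rk K P : ℂ) * FF a b l := ⟨_, rfl⟩
  have hαβ : ‖a * b‖ ≤ (C₀ / l) ^ 2 := by
    rw [norm_mul, pow_two]
    exact mul_le_mul hα' hβ' (norm_nonneg _) (by positivity)
  have hω' : ‖a + b‖ ≤ 2 * C₀ / l := by
    refine (norm_add_le _ _).trans ((add_le_add hα' hβ').trans (le_of_eq ?_))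
    ring
  have hR₂b : ‖R₂‖ ≤ rk K P * η / 16 * l := by
    have e : R₂ = (((S 0 : ℝ) : ℂ) - ((rk K P * l ^ (0 + 1) / ((0 : ℕ) + 1) : ℝ) : ℂ)) +
        (a + b) * (((S 1 : ℝ) : ℂ) - ((rk K P * l ^ (1 + 1) / ((1 : ℕ) + 1) : ℝ) : ℂ)) +
        a * b * (((S 2 : ℝ) : ℂ) - ((rk K P * l ^ (2 + 1) / ((2 : ℕ) + 1) : ℝ) : ℂ)) := by
      rw [hR₂]
      unfold FF
      push_cast
      ring
    rw [e]
    have k0 := hSk 0 (by norm_num)
    have k1 := hSk 1 (by norm_num)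
    have k2 := hSk 2 (by norm_num)
    have n1 : ‖(a + b) * (((S 1 : ℝ) : ℂ) - ((rk K P * l ^ (1 + 1) / ((1 : ℕ) + 1) : ℝ) : ℂ))‖ ≤
        2 * C₀ / l * (η₂ * l ^ (1 + 1)) := by
      rw [norm_mul]
      exact mul_le_mul hω' k1 (norm_nonneg _) (by positivity)
    have n2 : ‖a * b * (((S 2 : ℝ) : ℂ) - ((rk K P * l ^ (2 + 1) / ((2 : ℕ) + 1) : ℝ) : ℂ))‖ ≤
        (C₀ / l) ^ 2 * (η₂ * l ^ (2 + 1)) := by
      rw [norm_mul]
      exact mul_le_mul hαβ k2 (norm_nonneg _) (by positivity)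
    refine (norm_add_le _ _).trans (le_trans (add_le_add (norm_add_le _ _) le_rfl) ?_)
    refine (add_le_add (add_le_add k0 n1) n2).trans (le_of_eq ?_)
    have e2 : η₂ * l ^ (0 + 1) + 2 * C₀ / l * (η₂ * l ^ (1 + 1)) +
        (C₀ / l) ^ 2 * (η₂ * l ^ (2 + 1)) = η₂ * (1 + C₀) ^ 2 * l := by
      field_simp
      ring
    rw [e2, hη₂]
    field_simp
  have hFF : ‖FF a b l‖ ≤ (1 + C₀) ^ 2 * l := by
    unfold FF
    have n1 : ‖(a + b) * (l : ℂ) ^ 2 / 2‖ ≤ 2 * C₀ / l * l ^ 2 / 2 := by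
      rw [norm_div, norm_mul, norm_pow, Complex.norm_real, Real.norm_of_nonneg hl0.le]
      have : ‖(2 : ℂ)‖ = 2 := by simp
      rw [this]
      exact div_le_div_of_nonneg_right (mul_le_mul_of_nonneg_right hω' (by positivity))
        (by norm_num)
    have n2 : ‖a * b * (l : ℂ) ^ 3 / 3‖ ≤ (C₀ / l) ^ 2 * l ^ 3 / 3 := by
      rw [norm_div, norm_mul _ ((l : ℂ) ^ 3), norm_pow, Complex.norm_real,
        Real.norm_of_nonneg hl0.le]
      have : ‖(3 : ℂ)‖ = 3 := by simp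
      rw [this]
      exact div_le_div_of_nonneg_right (mul_le_mul_of_nonneg_right hαβ (by positivity))
        (by norm_num)
    have n0 : ‖(l : ℂ)‖ = l := by rw [Complex.norm_real, Real.norm_of_nonneg hl0.le]
    refine (norm_add_le _ _).trans (le_trans (add_le_add (norm_add_le _ _) le_rfl) ?_)
    rw [n0]
    refine (add_le_add (add_le_add le_rfl n1) n2).trans ?_
    have e2 : l + 2 * C₀ / l * l ^ 2 / 2 + (C₀ / l) ^ 2 * l ^ 3 / 3 =
        (1 + C₀ + C₀ ^ 2 / 3) * l := by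
      field_simp
    rw [e2]
    refine mul_le_mul_of_nonneg_right ?_ hl0.le
    nlinarith [sq_nonneg C₀]
  -- the form
  have hVd : V2 K P M α β = (((G)⁻¹ ^ 2 : ℝ) : ℂ) * ((rk K P : ℂ) * FF a b l + (R₁ + R₂)) := by
    have h7 := v2_form h1 ar_two (AP K P M) M hM1 α β
    have h8 : V2 K P M α β = (((GS np (AP K P M) M)⁻¹ ^ 2 : ℝ) : ℂ) *
        ∑ D ∈ DS np (AP K P M) M, (((fS np D)⁻¹ : ℝ) : ℂ) *
          (Eb np (AP K P M) D (M / nS np D) (-α) * Eb np (AP K P M) D (M / nS np D) (-β)) := by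
      refine Eq.trans ?_ h7
      unfold V2 U2
      refine Finset.sum_congr rfl fun S _ => Finset.sum_congr rfl fun T _ => ?_
      have h9 : ∀ (d₁ d₂ : DecidableEq (PrI K)), @Inter.inter (Finset (PrI K))
          (@Finset.instInter _ d₁) S T = @Inter.inter (Finset (PrI K))
          (@Finset.instInter _ d₂) S T := by
        intro d₁ d₂
        rw [Subsingleton.elim d₁ d₂]
      rw [h9]
      rfl
    rw [h8, ← hGdef, ← ha, ← hb]
    congr 1
    have h9 : (rk K P : ℂ) * FF a b l + (R₁ + R₂) = R₁ + ∑ D ∈ DP K P M,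
      (((fS np D)⁻¹ : ℝ) : ℂ) * ((1 + a * (lam D : ℂ)) * (1 + b * (lam D : ℂ))) := by
      rw [hmain, hR₂]
      ring
    rw [h9, hR₁, ← Finset.sum_add_distrib]
    change ∑ D ∈ DP K P M, _ = _
    refine Finset.sum_congr rfl fun D _ => ?_
    push_cast
    ring
  have hfin := ar_fin (rk K P) l G η₃ ((1 + C₀) ^ 2)
    (2 * rk K P * A₁ * (Cg + cP) + rk K P * η / 16 * l + rk K P * η / 16 * l) (FF a b l)
    (R₁ + R₂) hρ hl0 hG hη₃' hFF ((norm_add_le _ _).trans (add_le_add hR₁b hR₂b))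
  rw [hVd, ← hl, ← ha, ← hb]
  refine hfin.trans ?_
  have g1 : 6 * η₃ / rk K P * ((1 + C₀) ^ 2 * l) ≤ η / 4 * l := by
    have g2 : η₃ ≤ rk K P * η / (24 * (1 + C₀) ^ 2) := by rw [hη₃]; exact min_le_right _ _
    calc 6 * η₃ / rk K P * ((1 + C₀) ^ 2 * l) ≤
        6 * (rk K P * η / (24 * (1 + C₀) ^ 2)) / rk K P * ((1 + C₀) ^ 2 * l) := by
          refine mul_le_mul_of_nonneg_right ?_ (by positivity)
          exact div_le_div_of_nonneg_right (by linarith) hρ.le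
      _ = η / 4 * l := by field_simp; ring
  have g3 : 4 / rk K P * (2 * rk K P * A₁ * (Cg + cP) + rk K P * η / 16 * l +
      rk K P * η / 16 * l) = 8 * A₁ * (Cg + cP) + η / 2 * l := by
    field_simp
    ring
  have g4 : 8 * A₁ * (Cg + cP) ≤ η / 4 * l := by
    rw [div_le_iff₀ hη] at hlbig
    linarith
  rw [g3]
  linarith

end Pool.Agent.H49.HC
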