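import Pool.Agent.H33.HC.TC
import Pool.Agent.H46.HH.NRM
import Pool.Agent.H37.HH.QUO

/-!
# MSC: mean squares with a shift
-/

set_option autoImplicit false

open NumberField Complex Filter Topology MeasureTheory
open scoped nonZeroDivisors

namespace Pool.Agent.H49.HC

open Pool.Agent.H33.HC Pool.Agent.H33.HH Pool.Agent.H28.RC Pool.Agent.H37.CV
  Pool.Agent.H65.CRZ Pool.Agent.H65.CRG

section
variable {K : Type} [Field K] [NumberField K]

theorem msc_fin (b : ℝ) : {I : NI K | nm I.1 < b}.Finite := by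
  have h1 := Ideal.finite_setOfPred_absNorm_le (S := 𝓞 K) ⌊b⌋₊
  refine Set.Finite.of_finite_image (f := fun I : NI K => I.1) (h1.subset ?_)
    Subtype.val_injective.injOn
  rintro _ ⟨I, hI, rfl⟩
  exact Nat.le_floor (le_of_lt hI)

open scoped Classical in
theorem msc_sumC (P b : ℝ) (f : Ideal (𝓞 K) → ℝ) (h : ∀ I, b ≤ nm I → f I = 0) :
    sumC P f = ∑ I ∈ (msc_fin (K := K) b).toFinset, if Cp P I.1 then f I.1 else 0 := by
  unfold sumC
  refine tsum_eq_sum fun I hI => ?_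
  rw [Set.Finite.mem_toFinset] at hI
  have h1 : b ≤ nm I.1 := not_lt.1 hI
  rw [h _ h1]
  simp

theorem msc_one_le (I : Ideal (𝓞 K)) (hI : I ≠ ⊥) : 1 ≤ nm I := by
  unfold nm
  have : Ideal.absNorm I ≠ 0 := fun h => hI (Ideal.absNorm_eq_zero_iff.1 h)
  exact_mod_cast Nat.one_le_iff_ne_zero.2 this

variable (K) in
theorem msc_count : ∃ C x₀ : ℝ, 0 ≤ C ∧ 1 ≤ x₀ ∧ ∀ x : ℝ, x₀ ≤ x →
    ((msc_fin (K := K) x).toFinset.card : ℝ) ≤ C * x := by
  have h := NumberField.Ideal.tendsto_norm_le_div_atTop K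
  obtain ⟨ρ, hρ⟩ : ∃ ρ : ℝ, Tendsto (fun s : ℝ =>
      (Nat.card {I : Ideal (𝓞 K) // (Ideal.absNorm I : ℝ) ≤ s} : ℝ) / s) atTop (𝓝 ρ) :=
    ⟨_, h⟩
  have h2 := hρ.eventually (gt_mem_nhds (lt_add_one ρ))
  obtain ⟨x₀, hx₀⟩ := Filter.eventually_atTop.1 h2
  refine ⟨|ρ + 1|, max x₀ 1, abs_nonneg _, le_max_right _ _, fun x hx => ?_⟩
  have hx1 : 1 ≤ x := (le_max_right _ _).trans hx
  have hx0 : 0 < x := by linarith
  have h3 := (hx₀ x ((le_max_left _ _).trans hx)).le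
  rw [div_le_iff₀ hx0] at h3
  have h4 : Finite {I : Ideal (𝓞 K) // (Ideal.absNorm I : ℝ) ≤ x} := by
    have h5 : {I : Ideal (𝓞 K) | (Ideal.absNorm I : ℝ) ≤ x}.Finite := by
      refine (Ideal.finite_setOfPred_absNorm_le (S := 𝓞 K) ⌊x⌋₊).subset ?_
      intro I hI
      have h6 : (Ideal.absNorm I : ℝ) ≤ x := hI
      exact Nat.le_floor h6
    exact h5.to_subtype
  have h5 : (msc_fin (K := K) x).toFinset.card ≤
      Nat.card {I : Ideal (𝓞 K) // (Ideal.absNorm I : ℝ) ≤ x} := by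
    rw [← Set.ncard_eq_toFinset_card _ (msc_fin (K := K) x), ← Nat.card_coe_set_eq]
    refine Nat.card_le_card_of_injective
      (fun I : {I : NI K | nm I.1 < x} => (⟨I.1.1, le_of_lt I.2⟩ :
        {I : Ideal (𝓞 K) // (Ideal.absNorm I : ℝ) ≤ x})) ?_
    intro I J hIJ
    apply Subtype.ext
    apply Subtype.ext
    have h6 := congrArg Subtype.val hIJ
    exact h6
  calc ((msc_fin (K := K) x).toFinset.card : ℝ) ≤
      (Nat.card {I : Ideal (𝓞 K) // (Ideal.absNorm I : ℝ) ≤ x} : ℝ) := by exact_mod_cast h5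
    _ ≤ (ρ + 1) * x := h3
    _ ≤ |ρ + 1| * x := mul_le_mul_of_nonneg_right (le_abs_self _) hx0.le

open scoped Classical in
theorem msc_fw (P Q : ℝ) (W : ℝ → ℝ) (k : Ideal (𝓞 K)) (F F1 : RCC K → ℝ) (E A N : ℝ)
    (hQ : 0 < Q) (hW : Pool.Agent.H33.HH.IsW W)
    (hfin : ∀ m : Ideal (𝓞 K), m ≠ ⊥ → (Pr K m).Finite) (hk : k ≠ ⊥)
    (hA0 : 0 ≤ A) (hA : ∀ q : Ideal (𝓞 K), q ≠ ⊥ → W (nm q / Q) ≠ 0 →
      ((Pr K (k * q)).ncard : ℝ) ≤ A) (hE : 0 ≤ E)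
    (h : ∀ q : Ideal (𝓞 K), q ≠ ⊥ → W (nm q / Q) ≠ 0 → ∀ χ ∈ Pr K (k * q),
      F χ ≤ 2 * F1 χ + E)
    (hN : ((msc_fin (K := K) Q).toFinset.card : ℝ) ≤ N) :
    FW P Q W k F ≤ 2 * FW P Q W k F1 + N * (A * E) := by
  have hWz : ∀ I : Ideal (𝓞 K), Q ≤ nm I → W (nm I / Q) = 0 := by
    intro I hI
    refine hW.high _ ?_
    rw [le_div_iff₀ hQ, one_mul]
    exact hI
  have h1 : ∀ F : RCC K → ℝ, FW P Q W k F = ∑ I ∈ (msc_fin (K := K) Q).toFinset,
      if Cp P I.1 then W (nm I.1 / Q) * ∑ᶠ χ ∈ Pr K (k * I.1), F χ else 0 := by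
    intro F
    unfold FW
    exact msc_sumC P Q _ fun I hI => by rw [hWz I hI, zero_mul]
  rw [h1 F, h1 F1]
  have h2 : ∑ I ∈ (msc_fin (K := K) Q).toFinset,
      (if Cp P I.1 then W (nm I.1 / Q) * ∑ᶠ χ ∈ Pr K (k * I.1), F χ else 0) ≤
      ∑ I ∈ (msc_fin (K := K) Q).toFinset,
      (2 * (if Cp P I.1 then W (nm I.1 / Q) * ∑ᶠ χ ∈ Pr K (k * I.1), F1 χ else 0) +
        A * E) := by
    refine Finset.sum_le_sum fun I _ => ?_
    have hAE : 0 ≤ A * E := mul_nonneg hA0 hE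
    by_cases hC : Cp P I.1
    · rw [if_pos hC, if_pos hC]
      by_cases hWI : W (nm I.1 / Q) = 0
      · rw [hWI]
        linarith
      · obtain ⟨hW0, hW1⟩ := hW.bd (nm I.1 / Q)
        have hkI : k * I.1 ≠ ⊥ := mul_ne_zero hk I.2
        have hfi := hfin _ hkI
        rw [finsum_mem_eq_finite_toFinset_sum _ hfi, finsum_mem_eq_finite_toFinset_sum _ hfi]
        have h3 : ∑ χ ∈ hfi.toFinset, F χ ≤ ∑ χ ∈ hfi.toFinset, (2 * F1 χ + E) :=
          Finset.sum_le_sum fun χ hχ => h I.1 I.2 hWI χ (hfi.mem_toFinset.1 hχ)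
        rw [Finset.sum_add_distrib, ← Finset.mul_sum, Finset.sum_const, nsmul_eq_mul] at h3
        have h4 : (hfi.toFinset.card : ℝ) ≤ A := by
          rw [← Set.ncard_eq_toFinset_card _ hfi]
          exact hA I.1 I.2 hWI
        have h5 : (hfi.toFinset.card : ℝ) * E ≤ A * E := mul_le_mul_of_nonneg_right h4 hE
        have h6 : W (nm I.1 / Q) * ∑ χ ∈ hfi.toFinset, F χ ≤
            W (nm I.1 / Q) * (2 * ∑ χ ∈ hfi.toFinset, F1 χ + A * E) :=
          mul_le_mul_of_nonneg_left (by linarith) hW0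
        have h7 : W (nm I.1 / Q) * (A * E) ≤ 1 * (A * E) :=
          mul_le_mul_of_nonneg_right hW1 hAE
        linarith
    · rw [if_neg hC, if_neg hC]
      linarith
  refine h2.trans ?_
  rw [Finset.sum_add_distrib, ← Finset.mul_sum, Finset.sum_const, nsmul_eq_mul]
  have h8 : ((msc_fin (K := K) Q).toFinset.card : ℝ) * (A * E) ≤ N * (A * E) :=
    mul_le_mul_of_nonneg_right hN (mul_nonneg hA0 hE)
  linarith

end

theorem msc_sq (x y : ℂ) (E : ℝ) (h : ‖x - y‖ ≤ E) : ‖y‖ ^ 2 ≤ 2 * ‖x‖ ^ 2 + 2 * E ^ 2 := by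
  have h1 : ‖y‖ ≤ ‖x‖ + ‖x - y‖ := by
    calc ‖y‖ = ‖x - (x - y)‖ := by rw [sub_sub_cancel]
      _ ≤ _ := norm_sub_le _ _
  have h2 : ‖y‖ ≤ ‖x‖ + E := by linarith
  have h3 : ‖y‖ ^ 2 ≤ (‖x‖ + E) ^ 2 := pow_le_pow_left₀ (norm_nonneg _) h2 2
  nlinarith [sq_nonneg (‖x‖ - E)]

theorem msc_sq2 (x y : ℝ) (hx : 0 ≤ x) (hxy : x ≤ y) (hy : y ≤ 1) : x ^ 2 ≤ y := by
  nlinarith

theorem msc_conj (α : ℂ) (u : ℝ) :
    (starRingEnd ℂ) (se α u) = se ((starRingEnd ℂ) α) (-u) := by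
  unfold se
  simp only [map_add, map_mul, map_div₀, map_one, map_ofNat, Complex.conj_ofReal,
    Complex.conj_I, Complex.ofReal_neg]
  ring

theorem pf_MSC (h1 : Pool.Agent.H33.HC.T_SH) (h2 : T_PSS) (h3 : T_BQS) (h4 : T_CNJ) (h5 : T_MVC)
    (h6 : Pool.Agent.H65.CRZ.T_BB) (h7 : Pool.Agent.H33.HH.T_GEX)
    (h8 : Pool.Agent.H33.HH.T_IEX) (h9 : Pool.Agent.H33.HH.T_PHM)
    (h10 : Pool.Agent.H33.HH.T_NPR) (h11 : Pool.Agent.H33.HH.T_PHN) : T_MSC := by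
  classical
  intro K _ _ _ P W k θ e R hSP hW hW1 hk hPar hR
  obtain ⟨G, hG⟩ := h7
  haveI : IsTotallyComplex K := (Pool.Agent.H46.HH.pf_NRM K).1
  have hwu : 0 < wu K := (Pool.Agent.H46.HH.pf_NRM K).2.1
  have hhc : 0 < hc K := by
    unfold hc
    exact_mod_cast classNumber_pos K
  have hθ1 : θ ≤ 1 := by linarith [hPar.le, hPar.epos]
  have hθ0 := hPar.θpos
  have hrk : 0 ≤ rk K P := by
    unfold rk rh
    refine mul_nonneg ?_ (Finset.prod_nonneg fun p _ => ?_)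
    · exact div_nonneg (by positivity) (mul_nonneg hwu.le (Real.sqrt_nonneg _))
    · have h12 : 1 ≤ np p := msc_one_le p.1 p.2.2
      have h13 : 1 / np p ≤ 1 := by
        rw [div_le_one (by linarith)]
        exact h12
      linarith
  have hquo : ∀ S ∈ (pf k).powerset, Sm' P (qu k S) := by
    intro S hS
    obtain ⟨-, hq2, -⟩ := Pool.Agent.H37.HH.pf_QUO K k hk.1
    obtain ⟨-, -, hq3, hq4, -⟩ := hq2 S (Finset.mem_powerset.1 hS)
    exact ⟨hq3, fun p hp => hk.2 p (hq4 p hp)⟩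
  have hphp : ∀ S ∈ (pf k).powerset, 0 < ph (qu k S) := fun S hS =>
    ((h11 K).1 _ (hquo S hS).1).2.1
  obtain ⟨Cb, hCb, hBB⟩ := h6 R θ hR hθ0 hθ1
  have hSH : ∀ S ∈ (pf k).powerset, ∃ B : ℝ, 0 ≤ B ∧ ∀ η : ℝ, 0 < η → ∃ Q₀ : ℝ, 2 ≤ Q₀ ∧
      ∀ Q : ℝ, Q₀ ≤ Q → ∀ (α β : ℂ) (u : ℝ), Ad (2 * R) Q α β →
      R / Real.log Q ≤ ‖α + β‖ →
      ‖SMs P (Q ^ θ) (Q ^ (1 + e)) Q W G (qu k S) α β u -
        ((rk K P * W1 W * Q ^ 2 : ℝ) : ℂ) * Bm α β (Real.log Q) (θ * Real.log Q)‖ ≤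
        η * (1 + |u|) ^ B * Q ^ 2 := fun S hS =>
    h1 K P W G (qu k S) θ e R (2 * R) hSP hW hW1 hG (hquo S hS) hPar hR (by positivity)
  choose! Bs hBs0 hBs using hSH
  have hnk : 1 ≤ nm k := msc_one_le k hk.1
  obtain ⟨Cm, Bp, Qm, hCm, hBp, hQm, hMVC⟩ := h5 K G hG P (nm k) θ e (by linarith) hθ0 hθ1
    hPar.epos
  obtain ⟨Cn, hCn, hNPR⟩ := h10 K
  obtain ⟨Cc, x₀, hCc, hx₀, hcount⟩ := msc_count K
  obtain ⟨δ, hδ, hlow⟩ := hW.low
  -- constants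
  obtain ⟨T, hT⟩ : ∃ T : ℝ, T = ∑ S ∈ (pf k).powerset, ph (qu k S) := ⟨_, rfl⟩
  have hT0 : 0 ≤ T := by
    rw [hT]
    exact Finset.sum_nonneg fun S hS => (hphp S hS).le
  obtain ⟨B, hB⟩ : ∃ B : ℝ, B = ∑ S ∈ (pf k).powerset, Bs S + 2 * Bp := ⟨_, rfl⟩
  have hBsum : 0 ≤ ∑ S ∈ (pf k).powerset, Bs S := Finset.sum_nonneg fun S hS => hBs0 S hS
  have hB0 : 0 ≤ B := by
    rw [hB]
    positivity
  have hBle : ∀ S ∈ (pf k).powerset, Bs S ≤ B := by
    intro S hS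
    have h12 : Bs S ≤ ∑ S ∈ (pf k).powerset, Bs S :=
      Finset.single_le_sum (f := Bs) (fun S hS => hBs0 S hS) hS
    rw [hB]
    linarith
  have hBp2 : 2 * Bp ≤ B := by
    rw [hB]
    linarith
  obtain ⟨A₁, hA₁⟩ : ∃ A₁ : ℝ, A₁ = hc K / wu K * nm k + Cn := ⟨_, rfl⟩
  have hA₁0 : 0 ≤ A₁ := by
    rw [hA₁]
    positivity
  obtain ⟨D, hD⟩ : ∃ D : ℝ, D = 2 * Cc * A₁ * Cm ^ 2 * (2 : ℝ) ^ (2 * Bp) := ⟨_, rfl⟩
  have hD0 : 0 ≤ D := by
    rw [hD]
    positivity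
  refine ⟨2 * (hc K / wu K * (T * (rk K P * W1 W * Cb))), B, by positivity, hB0,
    fun η hη => ?_⟩
  have hden : 0 < hc K / wu K * T + 1 := by positivity
  obtain ⟨η', hη'⟩ : ∃ η' : ℝ, η' = η / (4 * (hc K / wu K * T + 1)) := ⟨_, rfl⟩
  have hη'0 : 0 < η' := by
    rw [hη']
    positivity
  have hSQ : ∀ S ∈ (pf k).powerset, ∃ Q₀ : ℝ, 2 ≤ Q₀ ∧
      ∀ Q : ℝ, Q₀ ≤ Q → ∀ (α β : ℂ) (u : ℝ), Ad (2 * R) Q α β →
      R / Real.log Q ≤ ‖α + β‖ →
      ‖SMs P (Q ^ θ) (Q ^ (1 + e)) Q W G (qu k S) α β u -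
        ((rk K P * W1 W * Q ^ 2 : ℝ) : ℂ) * Bm α β (Real.log Q) (θ * Real.log Q)‖ ≤
        η' * (1 + |u|) ^ (Bs S) * Q ^ 2 := fun S hS => hBs S hS η' hη'0
  choose! Q₁ hQ₁2 hQ₁ using hSQ
  obtain ⟨Q₃, hQ₃⟩ : ∃ Q₃ : ℝ, Q₃ = ∑ S ∈ (pf k).powerset, |Q₁ S| := ⟨_, rfl⟩
  refine ⟨max (max 2 (max Q₃ Qm)) (max (max x₀ (2 / δ)) (max (Real.exp (24 * R)) (2 * D / η))),
    (le_max_left _ _).trans (le_max_left _ _), ?_⟩
  intro Q hQ a u ha
  have hQ2 : 2 ≤ Q := ((le_max_left _ _).trans (le_max_left _ _)).trans hQ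
  have hQ3 : Q₃ ≤ Q :=
    (((le_max_left _ _).trans (le_max_right _ _)).trans (le_max_left _ _)).trans hQ
  have hQQm : Qm ≤ Q :=
    (((le_max_right _ _).trans (le_max_right _ _)).trans (le_max_left _ _)).trans hQ
  have hQx : x₀ ≤ Q :=
    (((le_max_left _ _).trans (le_max_left _ _)).trans (le_max_right _ _)).trans hQ
  have hQδ : 2 / δ ≤ Q :=
    (((le_max_right _ _).trans (le_max_left _ _)).trans (le_max_right _ _)).trans hQ
  have hQR : Real.exp (24 * R) ≤ Q :=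
    (((le_max_left _ _).trans (le_max_right _ _)).trans (le_max_right _ _)).trans hQ
  have hQD : 2 * D / η ≤ Q :=
    (((le_max_right _ _).trans (le_max_right _ _)).trans (le_max_right _ _)).trans hQ
  have hQ0 : 0 < Q := by linarith
  have hQ1 : 1 ≤ Q := by linarith
  obtain ⟨L, hL⟩ : ∃ L, L = Real.log Q := ⟨_, rfl⟩
  have hLR : 24 * R ≤ L := by
    rw [hL, Real.le_log_iff_exp_le hQ0]
    exact hQR
  have hL0 : 0 < L := by linarith
  have hQ13 : ∀ S ∈ (pf k).powerset, Q₁ S ≤ Q := by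
    intro S hS
    refine (le_abs_self _).trans (le_trans ?_ hQ3)
    rw [hQ₃]
    exact Finset.single_le_sum (f := fun S => |Q₁ S|) (fun S _ => abs_nonneg _) hS
  rw [← hL] at ha
  have hRL : R / (2 * L) ≤ 1 / 48 := by
    rw [div_le_div_iff₀ (by positivity) (by norm_num)]
    linarith
  have hRL2 : R / L ≤ 1 / 24 := by
    rw [div_le_div_iff₀ hL0 (by norm_num)]
    linarith
  -- the shift
  obtain ⟨α, hα⟩ : ∃ α : ℂ, α = ((-(R / L) : ℝ) : ℂ) + a := ⟨_, rfl⟩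
  have hare : |a.re| ≤ R / (2 * L) := (Complex.abs_re_le_norm a).trans ha
  have haim : |a.im| ≤ R / (2 * L) := (Complex.abs_im_le_norm a).trans ha
  have hαre : α.re = -(R / L) + a.re := by rw [hα]; simp
  have hαim : α.im = a.im := by rw [hα]; simp
  have hRL' : R / (2 * L) = R / L / 2 := by
    field_simp
  have hαn : ‖α‖ ≤ 2 * R / L := by
    rw [hα]
    refine (norm_add_le _ _).trans ?_
    rw [Complex.norm_real, Real.norm_eq_abs, abs_neg, abs_of_pos (by positivity)]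
    have h12 : 2 * R / L = R / L + R / L := by ring
    have h13 : 0 ≤ R / L := by positivity
    rw [h12]
    linarith
  have hαβ : R / L ≤ ‖α + (starRingEnd ℂ) α‖ := by
    rw [Complex.add_conj, Complex.norm_real, Real.norm_eq_abs, abs_mul, abs_two, hαre]
    have h12 := (abs_le.1 hare).2
    have h13 : 0 ≤ R / L := by positivity
    rw [abs_of_nonpos (by linarith)]
    linarith
  have hseα : se α u = (sgm R Q : ℂ) + u * I + a := by
    unfold se sgm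
    rw [hα, ← hL]
    push_cast
    ring
  have hse0 : se 0 u = 1 / 2 + u * I := by
    unfold se
    ring
  have hNrs : Nr (se α u) := by
    unfold Nr
    have h12 : (se α u).re - 1 / 2 = α.re := by
      unfold se
      simp
    rw [h12, hαre]
    have h13 : 0 ≤ R / L := by positivity
    obtain ⟨h14, h15⟩ := abs_le.1 hare
    rw [abs_le]
    constructor <;> linarith
  have hNrz : Nr (se 0 u) := by
    unfold Nr
    have h12 : (se 0 u).re - 1 / 2 = 0 := by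
      unfold se
      simp
    rw [h12]
    norm_num
  have hsim : |(se α u).im| ≤ |u| + 1 := by
    have h12 : (se α u).im = a.im + u := by
      unfold se
      simp [hαim]
    rw [h12]
    refine (abs_add_le _ _).trans ?_
    linarith
  -- the coefficients
  have hy : 1 ≤ Q ^ θ := Real.one_le_rpow hQ1 hθ0.le
  have hZ : 0 < Q ^ (1 + e) := Real.rpow_pos_of_pos hQ0 _
  obtain ⟨c, hc'⟩ : ∃ c : Ideal (𝓞 K) → ℂ, c = cfs P (Q ^ θ) (Q ^ (1 + e)) G (se α u) (se 0 u) :=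
    ⟨_, rfl⟩
  obtain ⟨hsup, hcn, -⟩ := h3 K P (Q ^ θ) (Q ^ (1 + e)) G (se α u) (se 0 u) hG hy hZ hNrs
  rw [← hc'] at hsup
  have hcn' : ∀ n : Ideal (𝓞 K), c n ≠ 0 → n ≠ ⊥ ∧ Cp P n := by
    intro n hn
    rw [hc'] at hn
    obtain ⟨h12, h13, -⟩ := hcn n hn
    exact ⟨h12, h13⟩
  have hconj : (fun n => (starRingEnd ℂ) (c n)) =
      cfs P (Q ^ θ) (Q ^ (1 + e)) G (se ((starRingEnd ℂ) α) (-u)) (se 0 (-u)) := by
    funext n
    have h12 := h4 K P (Q ^ θ) (Q ^ (1 + e)) G (se α u) (se 0 u) n hZ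
    rw [hc', h12, msc_conj, msc_conj, map_zero]
  have hWQ : W (1 / Q) = 0 := by
    refine hlow _ ?_
    rw [div_le_iff₀ hQ0]
    rw [div_le_iff₀ hδ] at hQδ
    linarith
  have hpss := h2 K P Q W k c hQ0 hW hWQ hk hsup hcn'
  have hterm : ∀ S : Finset (PrI K), (sumZ P fun q => ((W (nm q / Q) * nm q : ℝ) : ℂ) *
        QQ2 (qu k S * q) c (fun n => (starRingEnd ℂ) (c n))) =
      SMs P (Q ^ θ) (Q ^ (1 + e)) Q W G (qu k S) α ((starRingEnd ℂ) α) u := by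
    intro S
    unfold SMs
    rw [hconj, hc']
  have hu1 : 1 ≤ 1 + |u| := by linarith [abs_nonneg u]
  -- the main term
  have hAd : Ad (2 * R) Q α ((starRingEnd ℂ) α) := by
    unfold Ad
    rw [Complex.norm_conj, ← hL]
    exact ⟨hαn, hαn⟩
  have hLα : ∀ z : ℂ, ‖z‖ ≤ R / (2 * L) → ‖(L : ℂ) * (((-(R / L) : ℝ) : ℂ) + z) + R‖ ≤ R / 2 := by
    intro z hz
    have h12 : (L : ℂ) * (((-(R / L) : ℝ) : ℂ) + z) + R = (L : ℂ) * z := by
      have h13 : (L : ℂ) ≠ 0 := by exact_mod_cast hL0.ne'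
      push_cast
      field_simp
      ring
    rw [h12, norm_mul, Complex.norm_real, Real.norm_of_nonneg hL0.le]
    calc L * ‖z‖ ≤ L * (R / (2 * L)) := mul_le_mul_of_nonneg_left hz hL0.le
      _ = R / 2 := by field_simp
  have hBm : ‖Bm α ((starRingEnd ℂ) α) L (θ * L)‖ ≤ Cb := by
    have h12 : (starRingEnd ℂ) α = ((-(R / L) : ℝ) : ℂ) + (starRingEnd ℂ) a := by
      rw [hα, map_add, Complex.conj_ofReal]
    have h13 := hLα a ha
    have h14 := hLα ((starRingEnd ℂ) a) (by rw [Complex.norm_conj]; exact ha)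
    rw [← hα] at h13
    rw [← h12] at h14
    obtain ⟨h15, h16⟩ := hBB L (θ * L) ((L : ℂ) * α) ((L : ℂ) * (starRingEnd ℂ) α) hL0 le_rfl
      (mul_le_of_le_one_left hL0.le hθ1) h13 h14
    have hLc : (L : ℂ) ≠ 0 := by exact_mod_cast hL0.ne'
    rw [mul_div_cancel_left₀ _ hLc, mul_div_cancel_left₀ _ hLc] at h15
    rw [h15]
    exact h16
  have hSMb : ∀ S ∈ (pf k).powerset,
      ‖SMs P (Q ^ θ) (Q ^ (1 + e)) Q W G (qu k S) α ((starRingEnd ℂ) α) u‖ ≤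
        (rk K P * W1 W * Cb) * Q ^ 2 + η' * (1 + |u|) ^ B * Q ^ 2 := by
    intro S hS
    have h12 := hQ₁ S hS Q (hQ13 S hS) α ((starRingEnd ℂ) α) u hAd (by rw [← hL]; exact hαβ)
    rw [← hL] at h12
    have h13 : ‖((rk K P * W1 W * Q ^ 2 : ℝ) : ℂ) * Bm α ((starRingEnd ℂ) α) L (θ * L)‖ ≤
        (rk K P * W1 W * Cb) * Q ^ 2 := by
      rw [norm_mul, Complex.norm_real, Real.norm_of_nonneg (by positivity)]
      calc rk K P * W1 W * Q ^ 2 * ‖Bm α ((starRingEnd ℂ) α) L (θ * L)‖ ≤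
          rk K P * W1 W * Q ^ 2 * Cb := mul_le_mul_of_nonneg_left hBm (by positivity)
        _ = _ := by ring
    have h14 : (1 + |u|) ^ (Bs S) ≤ (1 + |u|) ^ B :=
      Real.rpow_le_rpow_of_exponent_le hu1 (hBle S hS)
    have h15 : η' * (1 + |u|) ^ (Bs S) * Q ^ 2 ≤ η' * (1 + |u|) ^ B * Q ^ 2 :=
      mul_le_mul_of_nonneg_right (mul_le_mul_of_nonneg_left h14 hη'0.le) (by positivity)
    have h16 := norm_sub_norm_le
      (SMs P (Q ^ θ) (Q ^ (1 + e)) Q W G (qu k S) α ((starRingEnd ℂ) α) u)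
      (((rk K P * W1 W * Q ^ 2 : ℝ) : ℂ) * Bm α ((starRingEnd ℂ) α) L (θ * L))
    linarith
  have hF1 : FW P Q W k (fun χ => ‖∑ᶠ n : Ideal (𝓞 K), c n * χ.ψ n‖ ^ 2) ≤
      (hc K / wu K) * (T * ((rk K P * W1 W * Cb) * Q ^ 2 + η' * (1 + |u|) ^ B * Q ^ 2)) := by
    refine hpss.trans (mul_le_mul_of_nonneg_left ?_ (by positivity))
    rw [hT, Finset.sum_mul]
    refine Finset.sum_le_sum fun S hS => ?_
    rw [hterm S]
    have h12 := hSMb S hS
    have h13 : (-1 : ℝ) ^ S.card *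
        (SMs P (Q ^ θ) (Q ^ (1 + e)) Q W G (qu k S) α ((starRingEnd ℂ) α) u).re ≤
        (rk K P * W1 W * Cb) * Q ^ 2 + η' * (1 + |u|) ^ B * Q ^ 2 := by
      refine (le_abs_self _).trans ?_
      rw [abs_mul, abs_pow, abs_neg, abs_one, one_pow, one_mul]
      exact (Complex.abs_re_le_norm _).trans h12
    have h14 := mul_le_mul_of_nonneg_left h13 (hphp S hS).le
    linarith
  -- the error
  obtain ⟨E, hE⟩ : ∃ E : ℝ, E = Cm * (2 * (1 + |u|)) ^ Bp * Q ^ (-10 : ℝ) := ⟨_, rfl⟩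
  have hE0 : 0 ≤ E := by
    rw [hE]
    positivity
  have hper : ∀ q : Ideal (𝓞 K), q ≠ ⊥ → W (nm q / Q) ≠ 0 → ∀ χ ∈ Pr K (k * q),
      ‖ZP P χ (sgm R Q + u * I + a) * mlz P (Q ^ θ) χ.ψ (1 / 2 + u * I)‖ ^ 2 ≤
        2 * ‖∑ᶠ n : Ideal (𝓞 K), c n * χ.ψ n‖ ^ 2 + 2 * E ^ 2 := by
    intro q hq hWq χ hχ
    have hχf : χ.f = k * q := hχ
    have hqQ : nm q < Q := by
      by_contra hcon
      push Not at hcon
      apply hWq
      refine hW.high _ ?_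
      rw [le_div_iff₀ hQ0, one_mul]
      exact hcon
    have hnt : χ.f ≠ ⊤ := by
      rw [hχf]
      intro htop
      have hI1 : q = ⊤ := by
        rw [eq_top_iff, ← htop]
        exact Ideal.mul_le_right
      apply hWq
      have hn1 : nm q = 1 := by
        rw [hI1]
        unfold nm
        rw [Ideal.absNorm_top]
        norm_num
      rw [hn1]
      exact hWQ
    have hnf : nm χ.f ≤ nm k * Q := by
      rw [hχf]
      have h12 : nm (k * q) = nm k * nm q := by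
        unfold nm
        rw [map_mul]
        push_cast
        ring
      rw [h12]
      exact mul_le_mul_of_nonneg_left hqQ.le (by linarith)
    have h12 := hMVC Q hQQm χ hnt hnf (se α u) (se 0 u) hNrs hNrz
    rw [← hc', hseα, hse0] at h12
    refine msc_sq _ _ E (h12.trans ?_)
    rw [hE]
    refine mul_le_mul_of_nonneg_right (mul_le_mul_of_nonneg_left ?_ hCm)
      (Real.rpow_nonneg hQ0.le _)
    refine Real.rpow_le_rpow (by positivity) ?_ hBp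
    rw [hseα] at hsim
    linarith [abs_nonneg u]
  have hPrb : ∀ q : Ideal (𝓞 K), q ≠ ⊥ → W (nm q / Q) ≠ 0 →
      ((Pr K (k * q)).ncard : ℝ) ≤ A₁ * Q := by
    intro q hq hWq
    have hqQ : nm q < Q := by
      by_contra hcon
      push Not at hcon
      apply hWq
      refine hW.high _ ?_
      rw [le_div_iff₀ hQ0, one_mul]
      exact hcon
    have hnt : k * q ≠ ⊤ := by
      intro htop
      have hI1 : q = ⊤ := by
        rw [eq_top_iff, ← htop]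
        exact Ideal.mul_le_right
      apply hWq
      have hn1 : nm q = 1 := by
        rw [hI1]
        unfold nm
        rw [Ideal.absNorm_top]
        norm_num
      rw [hn1]
      exact hWQ
    have hkq : k * q ≠ ⊥ := mul_ne_zero hk.1 hq
    have h12 := (abs_le.1 (hNPR (k * q) hkq hnt)).2
    obtain ⟨-, h13, -⟩ := (h9 K).2.2 (k * q) hkq
    obtain ⟨-, -, h14⟩ := (h11 K).1 (k * q) hkq
    have h15 : nm (k * q) = nm k * nm q := by
      unfold nm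
      rw [map_mul]
      push_cast
      ring
    have h16 : phs (k * q) ≤ nm k * Q := by
      rw [h15] at h14
      have h17 : nm k * nm q ≤ nm k * Q := mul_le_mul_of_nonneg_left hqQ.le (by linarith)
      linarith
    have h18 : hc K / wu K * phs (k * q) ≤ hc K / wu K * (nm k * Q) :=
      mul_le_mul_of_nonneg_left h16 (by positivity)
    have h19 : Cn ≤ Cn * Q := le_mul_of_one_le_right hCn hQ1
    rw [hA₁]
    linarith
  have hfw := msc_fw P Q W k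
    (fun χ => ‖ZP P χ (sgm R Q + u * I + a) * mlz P (Q ^ θ) χ.ψ (1 / 2 + u * I)‖ ^ 2)
    (fun χ => ‖∑ᶠ n : Ideal (𝓞 K), c n * χ.ψ n‖ ^ 2) (2 * E ^ 2) (A₁ * Q) (Cc * Q) hQ0 hW
    (fun m hm => (h8 K m hm).1) hk.1 (by positivity) hPrb (by positivity) hper
    (hcount Q hQx)
  have herr : Cc * Q * (A₁ * Q * (2 * E ^ 2)) ≤ η / 2 * (1 + |u|) ^ B * Q ^ 2 := by
    have e1 : E ^ 2 = Cm ^ 2 * ((2 : ℝ) ^ (2 * Bp) * (1 + |u|) ^ (2 * Bp)) *
        (Q ^ (-10 : ℝ)) ^ 2 := by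
      rw [hE, Real.mul_rpow (by norm_num) (by linarith), mul_comm 2 Bp, Real.rpow_mul (by norm_num),
        Real.rpow_mul (by linarith), Real.rpow_two, Real.rpow_two]
      ring
    have e2 : (Q ^ (-10 : ℝ)) ^ 2 ≤ 1 / Q := by
      have e3 : Q ^ (-10 : ℝ) ≤ Q ^ (-1 : ℝ) :=
        Real.rpow_le_rpow_of_exponent_le hQ1 (by norm_num)
      rw [Real.rpow_neg_one] at e3
      have e4 : 0 ≤ Q ^ (-10 : ℝ) := Real.rpow_nonneg hQ0.le _
      have e5 : Q⁻¹ ≤ 1 := inv_le_one_of_one_le₀ hQ1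
      rw [one_div]
      exact msc_sq2 _ _ e4 e3 e5
    have e7 : (1 + |u|) ^ (2 * Bp) ≤ (1 + |u|) ^ B :=
      Real.rpow_le_rpow_of_exponent_le hu1 hBp2
    have e8 : D * (1 / Q) ≤ η / 2 := by
      rw [div_le_iff₀ hη] at hQD
      rw [mul_one_div, div_le_iff₀ hQ0]
      linarith
    calc Cc * Q * (A₁ * Q * (2 * E ^ 2)) =
        D * (Q ^ (-10 : ℝ)) ^ 2 * (1 + |u|) ^ (2 * Bp) * Q ^ 2 := by
          rw [e1, hD]
          ring
      _ ≤ D * (1 / Q) * (1 + |u|) ^ (2 * Bp) * Q ^ 2 := by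
          refine mul_le_mul_of_nonneg_right (mul_le_mul_of_nonneg_right
            (mul_le_mul_of_nonneg_left e2 hD0) ?_) (by positivity)
          exact Real.rpow_nonneg (by linarith) _
      _ ≤ η / 2 * (1 + |u|) ^ B * Q ^ 2 := by
          refine mul_le_mul_of_nonneg_right (mul_le_mul e8 e7
            (Real.rpow_nonneg (by linarith) _) (by positivity)) (by positivity)
  have hmain : 2 * ((hc K / wu K) *
      (T * ((rk K P * W1 W * Cb) * Q ^ 2 + η' * (1 + |u|) ^ B * Q ^ 2))) ≤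
      2 * (hc K / wu K * (T * (rk K P * W1 W * Cb))) * Q ^ 2 +
        η / 2 * (1 + |u|) ^ B * Q ^ 2 := by
    have e1 : 2 * (hc K / wu K * T) * η' ≤ η / 2 := by
      rw [hη', mul_div_assoc', div_le_iff₀ (by positivity)]
      linarith
    have e2 : 0 ≤ (1 + |u|) ^ B * Q ^ 2 := by positivity
    linarith [mul_le_mul_of_nonneg_right e1 e2]
  calc _ ≤ _ := hfw
    _ ≤ (2 * (hc K / wu K * (T * (rk K P * W1 W * Cb))) + η * (1 + |u|) ^ B) * Q ^ 2 := by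
        linarith [hF1, hmain, herr]

end Pool.Agent.H49.HC
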