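import Pool.Agent.H33.HC.TA

/-!
# SGC: the weight for complex `s` is a function with a transition at `1`
-/

set_option autoImplicit false

open NumberField Complex Filter Topology MeasureTheory
open scoped ContDiff nonZeroDivisors

namespace Pool.Agent.H49.HC

open Pool.Agent.H33.HC Pool.Agent.H33.HH Pool.Agent.H28.RC Pool.Agent.H37.CV

/-- the derivative of a function which is constant to the left of `b` -/
theorem deriv_left (f : ℝ → ℂ) (hf : Differentiable ℝ f) (b : ℝ) (c : ℂ)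
    (h : ∀ u, u ≤ b → f u = c) (t : ℝ) (ht : t ≤ b) : deriv f t = 0 := by
  have h1 : HasDerivWithinAt f (deriv f t) (Set.Iic t) t := (hf t).hasDerivAt.hasDerivWithinAt
  have h2 : HasDerivWithinAt f 0 (Set.Iic t) t :=
    (hasDerivWithinAt_const t (Set.Iic t) c).congr (fun u hu => h u (le_trans hu ht)) (h t ht)
  exact (uniqueDiffWithinAt_Iic t).eq_deriv _ h1 h2

/-- the derivative of a function which is constant to the right of `b` -/
theorem deriv_right (f : ℝ → ℂ) (hf : Differentiable ℝ f) (b : ℝ) (c : ℂ)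
    (h : ∀ u, b ≤ u → f u = c) (t : ℝ) (ht : b ≤ t) : deriv f t = 0 := by
  have h1 : HasDerivWithinAt f (deriv f t) (Set.Ici t) t := (hf t).hasDerivAt.hasDerivWithinAt
  have h2 : HasDerivWithinAt f 0 (Set.Ici t) t :=
    (hasDerivWithinAt_const t (Set.Ici t) c).congr (fun u hu => h u (le_trans ht hu)) (h t ht)
  exact (uniqueDiffWithinAt_Ici t).eq_deriv _ h1 h2

theorem pf_SGC (h : T_GSC) : T_SGC := by
  intro G hG
  obtain ⟨hA, hB⟩ := h G hG
  obtain ⟨C₀, hC₀, hb0⟩ := hB 0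
  obtain ⟨C₁, hC₁, hb1⟩ := hB 1
  have key : ∀ t : ℝ, 1 ≤ t → t ≤ 6 → (1 / 2 : ℝ) ≤ t ^ (-(1 / 4) : ℝ) := by
    intro t h1 h6
    have h2 : (16 : ℝ) ^ (-(1 / 4) : ℝ) ≤ t ^ (-(1 / 4) : ℝ) :=
      Real.rpow_le_rpow_of_nonpos (by linarith) (by linarith) (by norm_num)
    have h4 : (16 : ℝ) ^ (-(1 / 4) : ℝ) = 1 / 2 := by
      rw [show (16 : ℝ) = 2 ^ (4 : ℝ) by norm_num, ← Real.rpow_mul (by norm_num)]
      norm_num
    rwa [h4] at h2
  refine ⟨12 * (C₀ + C₁), by positivity, fun s hs => ?_⟩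
  obtain ⟨hsm, hlo, hhi, -⟩ := hA s hs
  obtain ⟨hd, hd2⟩ := contDiff_infty_iff_deriv.1 hsm
  have hc : Continuous (deriv (Gs G s)) := hd2.continuous
  refine ⟨fun t _ => (hd t).hasDerivAt, hc.continuousOn, ?_, ?_⟩
  · intro t ht0 ht1
    rw [hlo t ht1, deriv_left _ hd 1 1 hlo t ht1, sub_self, norm_zero]
    constructor <;> positivity
  · intro t ht1
    have ht0 : 0 < t := by linarith
    rcases le_or_gt t 6 with h6 | h6
    · have hk := key t ht1 h6
      have e1 := hb0 s hs t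
      have e2 := hb1 s hs t
      rw [iteratedDeriv_zero] at e1
      rw [iteratedDeriv_one] at e2
      rw [div_one]
      constructor
      · have h5 : (12 * (C₀ + C₁)) * (1 / 2) ≤ 12 * (C₀ + C₁) * t ^ (-(1 / 4) : ℝ) :=
          mul_le_mul_of_nonneg_left hk (by positivity)
        linarith
      · have h5 : (12 * (C₀ + C₁)) * (1 / 2) ≤ 12 * (C₀ + C₁) * t ^ (-(1 / 4) : ℝ) :=
          mul_le_mul_of_nonneg_left hk (by positivity)
        have h7 : t * ‖deriv (Gs G s) t‖ ≤ 6 * C₁ :=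
          mul_le_mul h6 e2 (norm_nonneg _) (by norm_num)
        have e3 : 12 * (C₀ + C₁) / t * t ^ (-(1 / 4) : ℝ) =
            12 * (C₀ + C₁) * t ^ (-(1 / 4) : ℝ) / t := by ring
        rw [e3, le_div_iff₀ ht0]
        linarith
    · rw [hhi t h6.le, deriv_right _ hd 6 0 hhi t h6.le, norm_zero]
      constructor <;> positivity

end Pool.Agent.H49.HC
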