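import Pool.Agent.H33.HC.TC

/-!
# SGE: the weight `Gs` in terms of `G`
-/

set_option autoImplicit false

open NumberField Complex Filter Topology MeasureTheory
open scoped nonZeroDivisors

namespace Pool.Agent.H49.HC

open Pool.Agent.H33.HC Pool.Agent.H33.HH Pool.Agent.H28.RC Pool.Agent.H37.CV
  Pool.Agent.H65.CRZ Pool.Agent.H65.CRG

theorem sge_fin {K : Type} [Field K] [NumberField K] (b : ℝ) :
    {m : NI K | nm m.1 ≤ b}.Finite := by
  have h : {I : Ideal (𝓞 K) | Ideal.absNorm I ≤ ⌊b⌋₊}.Finite :=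
    Ideal.finite_setOfPred_absNorm_le ⌊b⌋₊
  refine (h.preimage (f := fun m : NI K => m.1) Subtype.val_injective.injOn).subset ?_
  intro m hm
  simp only [Set.mem_preimage, Set.mem_ofPred_eq] at hm ⊢
  exact Nat.le_floor hm

theorem sge_sum {K : Type} [Field K] [NumberField K] {G : ℝ → ℝ}
    (hG : Pool.Agent.H33.HH.IsG G) {X : ℝ} (hX : 0 < X) (s : ℂ) (ψ : Ideal (𝓞 K) → ℂ) :
    Summable (fun m : NI K => (G (nm m.1 / X) : ℂ) * (nm m.1 : ℂ) ^ (-s) * ψ m.1) := by
  apply summable_of_hasFiniteSupport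
  refine (sge_fin (K := K) (3 * X)).subset ?_
  intro m hm
  simp only [Set.mem_ofPred_eq]
  by_contra hc
  push Not at hc
  apply hm
  have h3 : (3 : ℝ) ≤ nm m.1 / X := by
    rw [le_div_iff₀ hX]
    exact hc.le
  simp [hG.high _ h3]

theorem pf_SGE : T_SGE := by
  intro K _ _ _ G X s ψ hG hX
  have hX2 : (0 : ℝ) < 2 * X := by positivity
  unfold SGz SG
  rw [← tsum_mul_left, ← (sge_sum hG hX s ψ).tsum_sub ((sge_sum hG hX2 s ψ).mul_left _),
    ← tsum_div_const]
  refine tsum_congr fun m => ?_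
  unfold gc Gs
  have h1 : nm m.1 / X / 2 = nm m.1 / (2 * X) := by
    rw [div_div, mul_comm X 2]
  rw [h1]
  ring

end Pool.Agent.H49.HC
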