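import Pool.Agent.H33.HC.TB

/-!
# YCB: the constant of the dual term
-/

set_option autoImplicit false

open NumberField Complex Filter Topology MeasureTheory
open scoped nonZeroDivisors

namespace Pool.Agent.H49.HC

open Pool.Agent.H33.HC Pool.Agent.H33.HH Pool.Agent.H28.RC Pool.Agent.H37.CV
  Pool.Agent.H65.CRZ

theorem pf_YCB (h1 : T_PSC) (h2 : T_LWB) : T_YCB := by
  intro K _ _ _ P W H hW hW1 hH
  obtain ⟨A, hA, hps⟩ := h1 K W H hW hW1 hH
  obtain ⟨C, hC, hl⟩ := h2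
  refine ⟨‖(rk K P : ℂ)‖ * (C * A), by positivity, fun s w hs hw0 hw => ?_⟩
  obtain ⟨f', hf'⟩ := hps s hs
  have h3 := hl (psc K W H s) f' (A * (1 + |s.im|)) w (by positivity) hf' hw
  have h4 : Yc K P W H s w - (rk K P : ℂ) / w = -((rk K P : ℂ) * Lw w (psc K W H s)) := by
    unfold Yc
    ring
  rw [h4, norm_neg, norm_mul]
  calc ‖(rk K P : ℂ)‖ * ‖Lw w (psc K W H s)‖ ≤ ‖(rk K P : ℂ)‖ * (C * (A * (1 + |s.im|))) :=
        mul_le_mul_of_nonneg_left h3 (norm_nonneg _)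
    _ = ‖(rk K P : ℂ)‖ * (C * A) * (1 + |s.im|) := by ring

end Pool.Agent.H49.HC
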