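import Pool.Agent.H33.HC.TC
import Pool.Agent.H85.HH.SGD

/-!
# SDC: the difference of two smooth sums at a general point
-/

set_option autoImplicit false

open NumberField Complex Filter Topology MeasureTheory
open scoped ContDiff nonZeroDivisors

namespace Pool.Agent.H49.HC

open Pool.Agent.H33.HC Pool.Agent.H33.HH Pool.Agent.H28.RC Pool.Agent.H37.CV
  Pool.Agent.H65.CRZ Pool.Agent.H65.CRG Pool.Agent.H85.HH

/-- a smooth function equal to the logarithm for `u ≥ 1/7` -/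
noncomputable def sdl (G : ℝ → ℝ) (u : ℝ) : ℝ := (1 - G (21 * u)) * Real.log u

theorem sdl_smooth {G : ℝ → ℝ} (hG : Pool.Agent.H33.HH.IsG G) : ContDiff ℝ ∞ (sdl G) := by
  rw [contDiff_iff_contDiffAt]
  intro u
  by_cases hu : u < 1 / 21
  · have hev : sdl G =ᶠ[𝓝 u] fun _ => (0 : ℝ) := by
      filter_upwards [eventually_lt_nhds hu] with v hv
      unfold sdl
      rw [hG.low _ (by linarith), sub_self, zero_mul]
    exact contDiffAt_const.congr_of_eventuallyEq hev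
  · have hu0 : u ≠ 0 := by
      intro h
      rw [h] at hu
      norm_num at hu
    unfold sdl
    refine ContDiffAt.mul ?_ (Real.contDiffAt_log.2 hu0)
    exact (contDiff_const.sub (hG.smooth.comp (by fun_prop))).contDiffAt

theorem sdl_eq {G : ℝ → ℝ} (hG : Pool.Agent.H33.HH.IsG G) {u : ℝ} (hu : 1 / 7 ≤ u) :
    sdl G u = Real.log u := by
  unfold sdl
  rw [hG.high _ (by linarith)]
  ring

/-- the logarithm of the square of the modulus -/
noncomputable def sdh (G : ℝ → ℝ) (z : ℂ) : ℝ := sdl G (‖z‖ ^ 2)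

theorem sdh_smooth {G : ℝ → ℝ} (hG : Pool.Agent.H33.HH.IsG G) : ContDiff ℝ ∞ (sdh G) :=
  (sdl_smooth hG).comp (contDiff_id.norm_sq ℝ)

/-- the factor with compact support -/
noncomputable def sdf (G : ℝ → ℝ) (q : (ℝ × ℝ) × ℂ) : ℝ :=
  Real.exp (-(q.1.1 * sdh G q.2)) * dG G (‖q.2‖ ^ 2)

theorem sdf_smooth {G : ℝ → ℝ} (hG : Pool.Agent.H33.HH.IsG G) : ContDiff ℝ ∞ (sdf G) := by
  have h1 : ContDiff ℝ ∞ (fun q : (ℝ × ℝ) × ℂ => q.1.1) := contDiff_fst.comp contDiff_fst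
  have h2 : ContDiff ℝ ∞ (fun q : (ℝ × ℝ) × ℂ => sdh G q.2) :=
    (sdh_smooth hG).comp contDiff_snd
  have hd : ContDiff ℝ ∞ (dG G) := by
    unfold dG
    exact (hG.smooth.comp (by fun_prop)).sub (hG.smooth.comp (by fun_prop))
  have h3 : ContDiff ℝ ∞ (fun q : (ℝ × ℝ) × ℂ => ‖q.2‖ ^ 2) := contDiff_snd.norm_sq ℝ
  exact ((h1.mul h2).neg.exp).mul (hd.comp h3)

theorem sd_split {G : ℝ → ℝ} (hG : Pool.Agent.H33.HH.IsG G) (T : ℝ → ℝ) (s1 s2 : ℝ) (z : ℂ) :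
    wt T G s1 s2 (‖z‖ ^ 2) = sdf G ((s1, 0), z) * T (s2 * sdh G z) := by
  unfold wt sdf sdh
  by_cases hz : ‖z‖ ^ 2 ≤ 1 / 7
  · rw [dG_low hG _ hz]
    ring
  · rw [sdl_eq hG (by linarith)]
    ring

theorem sd_bound (hCPM : T_CPM) {G T : ℝ → ℝ} (hG : Pool.Agent.H33.HH.IsG G)
    (hT : ContDiff ℝ ∞ T) (hT1 : ∀ (i : ℕ) (x : ℝ), |iteratedDeriv i T x| ≤ 1) (k : ℕ) :
    ∃ M : ℝ, 0 ≤ M ∧ ∀ s : ℂ, |s.re| ≤ 3 → ∀ z : ℂ,
      ‖iteratedFDeriv ℝ k (fun z : ℂ => wt T G s.re s.im (‖z‖ ^ 2)) z‖ ≤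
        M * (1 + |s.im|) ^ k := by
  -- the factor with compact support
  have hcomp : IsCompact (Set.Icc (-3 : ℝ) 3 ×ˢ ({0} : Set ℝ)) :=
    isCompact_Icc.prod isCompact_singleton
  have hvan : ∀ p ∈ Set.Icc (-3 : ℝ) 3 ×ˢ ({0} : Set ℝ), ∀ z : ℂ, 1 < ‖z‖ →
      sdf G (p, z) = 0 := by
    intro p _ z hz
    unfold sdf
    rw [dG_high hG _ (by nlinarith), mul_zero]
  have hF : ∀ i : ℕ, ∃ C : ℝ, 0 ≤ C ∧ ∀ s : ℂ, |s.re| ≤ 3 → ∀ z : ℂ,
      ‖iteratedFDeriv ℝ i (fun z => sdf G ((s.re, 0), z)) z‖ ≤ C := by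
    intro i
    obtain ⟨C, hC, h⟩ := hCPM (sdf G) _ 1 (sdf_smooth hG) hcomp hvan i
    refine ⟨C, hC, fun s hs z => ?_⟩
    have hre := abs_le.mp hs
    exact h (s.re, 0) ⟨⟨hre.1, hre.2⟩, rfl⟩ z
  choose Mf hMf0 hMf using hF
  -- the logarithm
  have hB : ∀ i : ℕ, ∃ C : ℝ, 0 ≤ C ∧ ∀ z : ℂ, ‖z‖ ≤ 1 → ‖iteratedFDeriv ℝ i (sdh G) z‖ ≤ C := by
    intro i
    have hc : Continuous (iteratedFDeriv ℝ i (sdh G)) :=
      (sdh_smooth hG).continuous_iteratedFDeriv (m := i) (by exact_mod_cast le_top)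
    obtain ⟨C, hC⟩ := (isCompact_closedBall (0 : ℂ) 1).exists_bound_of_continuousOn
      hc.continuousOn
    refine ⟨C, (norm_nonneg _).trans (hC 0 (by simp)), fun z hz => hC z (by simpa using hz)⟩
  choose Bf hBf0 hBf using hB
  obtain ⟨M, hM⟩ : ∃ M, M = ∑ i ∈ Finset.range (k + 1), Mf i := ⟨_, rfl⟩
  obtain ⟨B, hBd⟩ : ∃ B, B = ∑ i ∈ Finset.range (k + 1), Bf i := ⟨_, rfl⟩
  have hM0 : 0 ≤ M := by rw [hM]; exact Finset.sum_nonneg fun i _ => hMf0 i
  have hB0 : 0 ≤ B := by rw [hBd]; exact Finset.sum_nonneg fun i _ => hBf0 i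
  have hMi : ∀ i, i ≤ k → Mf i ≤ M := fun i hi => by
    rw [hM]
    exact Finset.single_le_sum (fun i _ => hMf0 i) (Finset.mem_range.2 (by omega))
  have hBi : ∀ i, i ≤ k → Bf i ≤ B := fun i hi => by
    rw [hBd]
    exact Finset.single_le_sum (fun i _ => hBf0 i) (Finset.mem_range.2 (by omega))
  refine ⟨2 ^ k * M * k.factorial * (1 + B) ^ k, by positivity, fun s hs z => ?_⟩
  rcases le_or_gt ‖z‖ 1 with hz | hz
  · have hfun : (fun z : ℂ => wt T G s.re s.im (‖z‖ ^ 2)) =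
        fun z => sdf G ((s.re, 0), z) * (T ∘ fun z => s.im * sdh G z) z := by
      funext z
      exact sd_split hG T s.re s.im z
    have h1 : ContDiff ℝ ∞ (fun z => sdf G ((s.re, 0), z)) :=
      (sdf_smooth hG).comp (contDiff_const.prodMk contDiff_id)
    have h2 : ContDiff ℝ ∞ (fun z => s.im * sdh G z) := contDiff_const.mul (sdh_smooth hG)
    have h3 : ContDiff ℝ ∞ (T ∘ fun z => s.im * sdh G z) := hT.comp h2
    obtain ⟨D, hD⟩ : ∃ D, D = (1 + |s.im|) * (1 + B) := ⟨_, rfl⟩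
    have hs0 := abs_nonneg s.im
    have hD1 : 1 ≤ D := by
      rw [hD]
      nlinarith [mul_nonneg hs0 hB0]
    have h4 : ∀ j, j ≤ k → ‖iteratedFDeriv ℝ j (T ∘ fun z => s.im * sdh G z) z‖ ≤
        j.factorial * 1 * D ^ j := by
      intro j hj
      refine norm_iteratedFDeriv_comp_le (N := ∞) hT h2 (by exact_mod_cast le_top) z ?_ ?_
      · intro i _
        rw [norm_iteratedFDeriv_eq_norm_iteratedDeriv, Real.norm_eq_abs]
        exact hT1 i _
      · intro i hi1 hi2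
        have h5 : iteratedFDeriv ℝ i (fun z => s.im * sdh G z) z =
            s.im • iteratedFDeriv ℝ i (sdh G) z := by
          have h6 := iteratedFDeriv_const_smul_apply (𝕜 := ℝ) (a := s.im) (i := i)
            (f := sdh G) (x := z) ((sdh_smooth hG).of_le (by exact_mod_cast le_top)).contDiffAt
          exact h6
        rw [h5, norm_smul, Real.norm_eq_abs]
        have h7 : ‖iteratedFDeriv ℝ i (sdh G) z‖ ≤ B :=
          (hBf i z hz).trans (hBi i (by omega))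
        calc |s.im| * ‖iteratedFDeriv ℝ i (sdh G) z‖ ≤ |s.im| * B :=
              mul_le_mul_of_nonneg_left h7 hs0
          _ ≤ D := by
              rw [hD]
              nlinarith
          _ = D ^ 1 := (pow_one D).symm
          _ ≤ D ^ i := pow_le_pow_right₀ hD1 hi1
    rw [hfun]
    refine (norm_iteratedFDeriv_mul_le (N := ∞) h1 h3 z (by exact_mod_cast le_top)).trans ?_
    have h5 : ∀ i ∈ Finset.range (k + 1), (k.choose i : ℝ) *
        ‖iteratedFDeriv ℝ i (fun z => sdf G ((s.re, 0), z)) z‖ *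
        ‖iteratedFDeriv ℝ (k - i) (T ∘ fun z => s.im * sdh G z) z‖ ≤
        (k.choose i : ℝ) * (M * (k.factorial * D ^ k)) := by
      intro i hi
      have hik : i ≤ k := by
        have := Finset.mem_range.1 hi
        omega
      rw [mul_assoc]
      refine mul_le_mul_of_nonneg_left ?_ (Nat.cast_nonneg _)
      refine mul_le_mul ((hMf i s hs z).trans (hMi i hik)) ?_ (norm_nonneg _) hM0
      refine (h4 (k - i) (Nat.sub_le _ _)).trans ?_
      rw [mul_one]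
      refine mul_le_mul ?_ (pow_le_pow_right₀ hD1 (Nat.sub_le _ _)) (by positivity)
        (by positivity)
      exact_mod_cast Nat.factorial_le (Nat.sub_le _ _)
    refine (Finset.sum_le_sum h5).trans (le_of_eq ?_)
    rw [← Finset.sum_mul, ← Nat.cast_sum, Nat.sum_range_choose, hD, mul_pow]
    push_cast
    ring
  · have hev : (fun z : ℂ => wt T G s.re s.im (‖z‖ ^ 2)) =ᶠ[𝓝 z] fun _ => (0 : ℝ) := by
      have h1 : ∀ᶠ y : ℂ in 𝓝 z, 1 < ‖y‖ := continuous_norm.continuousAt.eventually_const_lt hz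
      filter_upwards [h1] with y hy
      exact wt_high hG _ _ _ (by nlinarith)
    have h2 := (hev.iteratedFDeriv ℝ k).self_of_nhds
    rw [h2]
    have h3 : iteratedFDeriv ℝ k (fun _ : ℂ => (0 : ℝ)) z = 0 := by
      rw [iteratedFDeriv_zero_fun]
      rfl
    rw [h3, norm_zero]
    positivity

theorem sd_pow {X : ℝ} (hX1 : 1 ≤ X) (s : ℂ) (hs : |s.re| ≤ 3) :
    ‖((7 * X : ℝ) : ℂ) ^ (-s)‖ ≤ 343 * X ^ 3 := by
  have hre := abs_le.mp hs
  rw [Complex.norm_cpow_eq_rpow_re_of_pos (by positivity)]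
  calc (7 * X) ^ (-s).re ≤ (7 * X) ^ (3 : ℝ) := by
        apply Real.rpow_le_rpow_of_exponent_le (by linarith)
        simp only [Complex.neg_re]
        linarith [hre.1]
    _ = 343 * X ^ 3 := by
        rw [show (3 : ℝ) = ((3 : ℕ) : ℝ) by norm_num, Real.rpow_natCast]
        ring

theorem pf_SDC (h1 : Pool.Agent.H33.HH.T_TWS) (h2 : Pool.Agent.H33.HH.T_CPM) : T_SDC := by
  intro K _ _ _ G hG k hk
  obtain ⟨C, hC, hT⟩ := h1 K k hk
  obtain ⟨M₁, hM₁, b₁⟩ := sd_bound h2 hG Real.contDiff_cos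
    (fun i x => Real.abs_iteratedDeriv_cos_le_one i x) k
  obtain ⟨M₂, hM₂, b₂⟩ := sd_bound h2 hG Real.contDiff_sin
    (fun i x => Real.abs_iteratedDeriv_sin_le_one i x) k
  refine ⟨343 * C * (M₁ + M₂), by positivity, ?_⟩
  intro χ hχ X hX s hs
  have hf : 0 < nm χ.f := Pool.Agent.H85.HH.nm_pos (⟨χ.f, χ.f_ne⟩ : NI K)
  have hf1 : 1 ≤ nm χ.f := by
    have h0 : Ideal.absNorm χ.f ≠ 0 := by
      rw [Ne, Ideal.absNorm_eq_zero_iff]
      exact χ.f_ne
    unfold nm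
    exact_mod_cast Nat.one_le_iff_ne_zero.mpr h0
  have hX0 : 0 < X := lt_of_lt_of_le hf hX
  have hX1 : 1 ≤ X := hf1.trans hX
  have hex : (1 : ℝ) - (k : ℝ) / 2 ≤ 0 := by
    have : (2 : ℝ) ≤ k := by exact_mod_cast hk
    linarith
  have hpow : (7 * X / nm χ.f) ^ (1 - (k : ℝ) / 2) ≤ (X / nm χ.f) ^ (1 - (k : ℝ) / 2) :=
    Real.rpow_le_rpow_of_nonpos (div_pos hX0 hf)
      (div_le_div_of_nonneg_right (by linarith) hf.le) hex
  have e₁ := hT (wt Real.cos G s.re s.im) (M₁ * (1 + |s.im|) ^ k)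
    (wt_smooth' hG Real.contDiff_cos s)
    (fun u hu => wt_high hG _ _ _ hu) (b₁ s hs) χ hχ (7 * X) (by linarith)
  have e₂ := hT (wt Real.sin G s.re s.im) (M₂ * (1 + |s.im|) ^ k)
    (wt_smooth' hG Real.contDiff_sin s)
    (fun u hu => wt_high hG _ _ _ hu) (b₂ s hs) χ hχ (7 * X) (by linarith)
  rw [SG_diff hG hX0]
  refine (fin_bound _ C (M₁ * (1 + |s.im|) ^ k) (M₂ * (1 + |s.im|) ^ k) _ _ _ _ _ _
    (sd_pow hX1 s hs) (by positivity) hC (by positivity) (by positivity) hf.le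
    hpow e₁ e₂).trans (le_of_eq ?_)
  ring

end Pool.Agent.H49.HC
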